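import Pool.Agent.N202.NC.C1

/-!
# The bridge between the two definitions of Hodge structures
-/

set_option linter.unusedSectionVars false

namespace Pool.Agent.N202.NC

open Matrix ComplexConjugate
open Pool.Agent.N996.BP Pool.Agent.N202.TB
open Pool.Agent.N202.CF (Tensor inL IsComb act matL der kil_iff IsCombM der_eq)

variable {ι : Type} [Fintype ι] [DecidableEq ι]

/-- The two structures agree. -/
structure Br (P : HodgeStructure ι) (H : HData ι) : Prop where
  l : ∀ t, H.l t = P.l t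
  Qr : ∃ c : ℚ, c ≠ 0 ∧ H.Qr = c • (P.ψ)ᵀ

lemma exists_br (hHD : S_HD) (P : HodgeStructure ι) : ∃ H : HData ι, Br P H := by
  obtain ⟨H, h1, -, -, h2⟩ := hHD ι P
  exact ⟨H, h1, h2⟩

variable {P : HodgeStructure ι} {H : HData ι}

lemma matL_cQ (x : Matrix ι ι ℚ) : matL ℂ x = cQ x := rfl

/-- Projectors out of range vanish. -/
lemma pi_zero {k : ℤ} (hk : k ∉ Finset.Icc (-P.w : ℤ) P.w) : P.π k = 0 := by
  have h : P.π k * ∑ m ∈ Finset.Icc (-P.w : ℤ) P.w, P.π m = 0 := by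
    rw [Finset.mul_sum]
    refine Finset.sum_eq_zero fun m hm => ?_
    rw [P.π_mul, if_neg]
    rintro rfl
    exact hk hm
  rwa [P.sum_π, Matrix.mul_one] at h

lemma pi_l (k : ℤ) (t : ℂ) : P.π k * P.l t = t ^ k • P.π k := by
  rw [HodgeStructure.l, Finset.mul_sum]
  by_cases hk : k ∈ Finset.Icc (-P.w : ℤ) P.w
  · rw [Finset.sum_eq_single k]
    · rw [Matrix.mul_smul, P.π_mul, if_pos rfl]
    · intro m _ hne
      rw [Matrix.mul_smul, P.π_mul, if_neg (Ne.symm hne), smul_zero]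
    · intro h; exact absurd hk h
  · rw [pi_zero hk, smul_zero]
    exact Finset.sum_eq_zero fun m _ => by rw [Matrix.zero_mul]

lemma l_pi (k : ℤ) (t : ℂ) : P.l t * P.π k = t ^ k • P.π k := by
  rw [HodgeStructure.l, Finset.sum_mul]
  by_cases hk : k ∈ Finset.Icc (-P.w : ℤ) P.w
  · rw [Finset.sum_eq_single k]
    · rw [Matrix.smul_mul, P.π_mul, if_pos rfl]
    · intro m _ hne
      rw [Matrix.smul_mul, P.π_mul, if_neg hne, smul_zero]
    · intro h; exact absurd hk h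
  · rw [pi_zero hk, smul_zero]
    exact Finset.sum_eq_zero fun m _ => by rw [Matrix.mul_zero]

lemma two_zpow {k l : ℤ} (h : (2 : ℂ) ^ k = (2 : ℂ) ^ l) : k = l := by
  have h1 : ‖(2 : ℂ) ^ k‖ = ‖(2 : ℂ) ^ l‖ := by rw [h]
  rw [norm_zpow, norm_zpow] at h1
  have h2 : ‖(2 : ℂ)‖ = 2 := by simp
  rw [h2] at h1
  exact zpow_right_injective₀ (a := (2 : ℝ)) (by norm_num) (by norm_num) h1

/-- Matrices which commute with `l 2` commute with the projectors. -/
lemma comm_pi {x : Matrix ι ι ℂ} (hx : P.l 2 * x = x * P.l 2) (k : ℤ) :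
    P.π k * x = x * P.π k := by
  have h1 : ∀ k m : ℤ, k ≠ m → P.π k * x * P.π m = 0 := by
    intro k m hne
    have h2 : P.π k * (P.l 2 * x) * P.π m = P.π k * (x * P.l 2) * P.π m := by rw [hx]
    rw [← Matrix.mul_assoc (P.π k) (P.l 2) x, pi_l, Matrix.mul_assoc (P.π k) (x * P.l 2),
      Matrix.mul_assoc x, l_pi, Matrix.mul_smul, Matrix.mul_smul, Matrix.smul_mul,
      Matrix.smul_mul, ← Matrix.mul_assoc] at h2
    have h3 : ((2 : ℂ) ^ k - (2 : ℂ) ^ m) • (P.π k * x * P.π m) = 0 := by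
      rw [sub_smul, h2, sub_self]
    refine (smul_eq_zero.1 h3).resolve_left fun h4 => hne (two_zpow ?_)
    exact eq_of_sub_eq_zero h4
  by_cases hk : k ∈ Finset.Icc (-P.w : ℤ) P.w
  · have h2 : P.π k * x = P.π k * x * P.π k := by
      conv_lhs => rw [← Matrix.mul_one (P.π k * x), ← P.sum_π, Finset.mul_sum]
      rw [Finset.sum_eq_single k]
      · intro m _ hne; exact h1 k m (Ne.symm hne)
      · intro h; exact absurd hk h
    have h3 : x * P.π k = P.π k * x * P.π k := by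
      conv_lhs => rw [← Matrix.one_mul (x * P.π k), ← P.sum_π, Finset.sum_mul]
      rw [Finset.sum_eq_single k]
      · rw [Matrix.mul_assoc]
      · intro m _ hne
        rw [← Matrix.mul_assoc]
        exact h1 m k hne
      · intro h; exact absurd hk h
    rw [h2, h3]
  · rw [pi_zero hk, Matrix.zero_mul, Matrix.mul_zero]

namespace Br

variable (b : Br P H)
include b

lemma hl : ∀ t : ℂ, t ≠ 0 → ∀ i j, H.l t i j ≠ 0 → P.deg i = P.deg j := by
  intro t _ i j h
  rw [b.l, HodgeStructure.l, Matrix.sum_apply] at h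
  obtain ⟨k, _, hk⟩ := Finset.exists_ne_zero_of_sum_ne_zero h
  rw [Matrix.smul_apply, smul_eq_mul] at hk
  exact P.π_deg k i j (right_ne_zero_of_mul hk)

lemma hQr : ∀ i j, H.Qr i j ≠ 0 → P.deg i = P.deg j := by
  intro i j h
  obtain ⟨c, _, hc⟩ := b.Qr
  rw [hc, Matrix.smul_apply, Matrix.transpose_apply, smul_eq_mul] at h
  exact (P.ψ_deg j i (right_ne_zero_of_mul h)).symm

lemma hQ : ∀ i j, H.Qir i j ≠ 0 → P.deg i = P.deg j := by
  have h1 := Q_mem H b.hQr
  have h2 : p0 P.deg ℚ (H.Qir * H.Qr) = p0 P.deg ℚ H.Qir * H.Qr := p0_mul_right h1 _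
  have h3 : p0 P.deg ℚ (1 : Matrix ι ι ℚ) = 1 := p0_of_mem fun i j hne => by
    rw [Matrix.one_apply_ne]
    rintro rfl
    exact hne rfl
  rw [BQ H, h3] at h2
  have h4 : p0 P.deg ℚ H.Qir = H.Qir := by
    have h5 := congrArg (fun M => M * H.Qir) h2
    simp only [Matrix.one_mul] at h5
    rw [Matrix.mul_assoc, H.Qr_Qir, Matrix.mul_one] at h5
    exact h5.symm
  intro i j h
  by_contra hne
  apply h
  rw [← h4]
  exact p0_mem H.Qir i j hne

lemma en_iff (x : Matrix ι ι ℚ) : En H P.deg x ↔ P.IsEndo x := by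
  constructor
  · rintro ⟨h1, h2⟩
    refine ⟨fun i j h => ?_, fun k => ?_⟩
    · by_contra hne
      exact h (h1 i j hne)
    · have h3 := h2 2 two_ne_zero
      rw [b.l] at h3
      exact comm_pi h3 k
  · rintro ⟨h1, h2⟩
    refine ⟨fun i j hne => ?_, fun t ht => ?_⟩
    · by_contra h
      exact hne (h1 i j h)
    · rw [b.l, HodgeStructure.l, Finset.sum_mul, Finset.mul_sum]
      refine Finset.sum_congr rfl fun k _ => ?_
      rw [Matrix.smul_mul, Matrix.mul_smul]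
      congr 1
      exact h2 k

lemma cs (h : P.NoCM) : CS H P.deg := by
  intro x hx hc
  have h1 := h x ((b.en_iff x).1 hx) fun y hy => hc y ((b.en_iff y).2 hy)
  obtain ⟨c, _, hc⟩ := b.Qr
  have h2 : xᵀ * H.Qr = H.Qr * x := by
    have h3 := congrArg Matrix.transpose h1
    rw [Matrix.transpose_mul, Matrix.transpose_mul, Matrix.transpose_transpose] at h3
    rw [hc, Matrix.mul_smul, Matrix.smul_mul, h3]
  have h3 := congrArg (fun M => H.Qir * M * H.Qir) h2
  simp only [Matrix.mul_assoc] at h3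
  rw [H.Qr_Qir, Matrix.mul_one, ← Matrix.mul_assoc H.Qir H.Qr, BQ H, Matrix.one_mul] at h3
  exact h3.symm

lemma isHodge_iff {n j : ℕ} (a : Tensor ι n ℚ) :
    P.IsHodge j a ↔ HasDegree P.deg a (2 * j) ∧ a ∈ BB H (Fin n) := by
  constructor
  · rintro ⟨h1, h2⟩
    refine ⟨h1, fun t ht => ?_⟩
    rw [b.l]
    exact h2 t ht
  · rintro ⟨h1, h2⟩
    refine ⟨h1, fun t ht => ?_⟩
    have h3 := h2 t ht
    rw [b.l] at h3
    exact h3

lemma kill_deg {L : Type} [Field L] [CharZero L] {z : Matrix ι ι L} (hz : Kill H L z) :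
    z ∈ E0 P.deg L := by
  intro i j hne
  by_contra h
  exact hne (hz.deg steps b.hl h)

lemma comp_BB {n : ℕ} {a : (Fin (n + 1) → ι) → ℚ} (ha : a ∈ BB H (Fin (n + 1))) (d : ℕ) :
    comp P.deg d a ∈ BB H (Fin (n + 1)) := by
  refine mem_BB_of_kill H fun z hz => ?_
  have h1 := hz n a ha
  rw [aLQ] at h1
  rw [dp_comp (b.kill_deg hz), h1]
  ext w
  simp [TB.comp]

omit b in
lemma comp_deg {L : Type} [Field L] (deg : ι → ℕ) {n : ℕ} (a : Tensor ι n L) (d : ℕ) :
    HasDegree deg (comp deg d a) d := by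
  intro w hw
  by_contra hne
  rw [TB.comp, if_neg hne] at hw
  exact hw rfl

omit b in
lemma comp_of_deg {L : Type} [Field L] {deg : ι → ℕ} {n : ℕ} {a : Tensor ι n L} {d : ℕ}
    (h : HasDegree deg a d) : comp deg d a = a := by
  funext w
  rw [TB.comp]
  split_ifs with h1
  · rfl
  · by_contra h2
    exact h1 (h w (Ne.symm h2))

/-- Even Hodge arrays are sums of Hodge classes. -/
lemma sum_hodge {n : ℕ} {a : (Fin (n + 1) → ι) → ℚ} (ha : a ∈ BB H (Fin (n + 1)))
    (he : ∀ w, a w ≠ 0 → Even (∑ k, P.deg (w k))) :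
    ∃ (N : ℕ) (f : ℕ → Tensor ι (n + 1) ℚ), (∀ j, P.IsHodge j (f j)) ∧
      a = ∑ j ∈ Finset.range N, f j := by
  obtain ⟨N, hN⟩ := sum_comp P.deg he
  exact ⟨N, fun j => comp P.deg (2 * j) a, fun j =>
    (b.isHodge_iff _).2 ⟨comp_deg P.deg a _, b.comp_BB ha _⟩, hN⟩

end Br

end Pool.Agent.N202.NC
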