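import Pool.Agent.N202.NC.Stm
import Pool.Agent.N202.CF.Core

/-!
# The core lemma: without CM part the Hodge classes of degree four determine the Lie algebra
-/

set_option linter.unusedSectionVars false

namespace Pool.Agent.N202.NC

open Matrix ComplexConjugate
open Pool.Agent.N996.BP Pool.Agent.N202.TB
open Pool.Agent.N202.CF (Tensor inL IsComb act matL der kil_iff IsCombM der_eq)

variable {ι : Type} [Fintype ι] [DecidableEq ι]

lemma mLQ (M : Matrix ι ι ℚ) : mL ℚ M = M := by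
  ext i j
  rw [mL_apply]
  exact Rat.cast_id _

lemma aLQ {κ : Type} (a : (κ → ι) → ℚ) : aL ℚ a = a := by
  funext i
  exact Rat.cast_id _

/-- Arrays which are killed are Hodge arrays. -/
lemma mem_BB_of_kill (H : HData ι) {n : ℕ} {a : (Fin (n + 1) → ι) → ℚ}
    (h : ∀ z, Kill H ℚ z → dp (Fin (n + 1)) z *ᵥ a = 0) : a ∈ BB H (Fin (n + 1)) := by
  have h1 := Pool.Agent.N738.TB.hodge_ ι H ℚ n a h
  have h2 : hspan H ℚ n ≤ BB H (Fin (n + 1)) := by
    refine Submodule.span_le.2 ?_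
    rintro _ ⟨b, hb, rfl⟩
    rw [aLQ]
    exact hb
  exact h2 h1

/-- The endomorphisms (commuting with the cocharacter). -/
def En (H : HData ι) (deg : ι → ℕ) (x : Matrix ι ι ℚ) : Prop :=
  x ∈ E0 deg ℚ ∧ ∀ t : ℂ, t ≠ 0 → H.l t * cQ x = cQ x * H.l t

/-- The centre consists of self-adjoint matrices. -/
def CS (H : HData ι) (deg : ι → ℕ) : Prop :=
  ∀ x, En H deg x → (∀ y, En H deg y → x * y = y * x) → x * H.Qir = H.Qir * xᵀ

lemma endo_of_BB (H : HData ι) {x : Matrix ι ι ℚ} (h : (vec2 (x * H.Qir)) ∈ BB H (Fin 2)) {t : ℂ}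
    (ht : t ≠ 0) : H.l t * cQ x = cQ x * H.l t := by
  have h0 : ca (vec2 (x * H.Qir)) = fun w : Fin 2 → ι => (cQ (x * H.Qir)) (w 0) (w 1) := rfl
  have h1 := h t ht
  rw [h0, kp_two] at h1
  have h2 : H.l t * cQ (x * H.Qir) * (H.l t)ᵀ = cQ (x * H.Qir) := by
    have h3 : vec2 (H.l t * cQ (x * H.Qir) * (H.l t)ᵀ) = vec2 (cQ (x * H.Qir)) := h1
    exact vec2.injective h3
  have h3 : cQ H.Qr * cQ H.Qir = 1 := by rw [← cQ_mul, H.Qr_Qir, cQ_one]
  have h4 : cQ H.Qir * cQ H.Qr = 1 := mul_eq_one_comm.1 h3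
  have h5 : (H.l t)ᵀ = cQ H.Qr * H.l t⁻¹ * cQ H.Qir := by
    rw [← H.l_tr ht, Matrix.mul_assoc, h3, Matrix.mul_one]
  rw [cQ_mul, h5] at h2
  have h6 : H.l t * cQ x * H.l t⁻¹ * cQ H.Qir = cQ x * cQ H.Qir := by
    rw [← h2]
    calc H.l t * cQ x * H.l t⁻¹ * cQ H.Qir =
        H.l t * (cQ x * ((cQ H.Qir * cQ H.Qr) * H.l t⁻¹)) * cQ H.Qir := by
          rw [h4, Matrix.one_mul, Matrix.mul_assoc (H.l t)]
      _ = _ := by simp only [Matrix.mul_assoc]
  have h7 := congrArg (fun M => M * cQ H.Qr * H.l t) h6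
  simp only [Matrix.mul_assoc] at h7
  rw [← Matrix.mul_assoc (cQ H.Qir), h4, Matrix.one_mul, H.l_inv' ht, Matrix.mul_one] at h7
  exact h7

section core

variable (S : Steps) (hPR : S_PR) (H : HData ι) {deg : ι → ℕ}
  (hl : ∀ t : ℂ, t ≠ 0 → ∀ i j, H.l t i j ≠ 0 → deg i = deg j)
  (hQ : ∀ i j, H.Qir i j ≠ 0 → deg i = deg j) (hQr : ∀ i j, H.Qr i j ≠ 0 → deg i = deg j)
  (o : ι) {v : Matrix ι ι ℚ}
  (hv : ∀ a ∈ BB H (Fin 4), (∀ w, a w ≠ 0 → Even (∑ k, deg (w k))) → dp (Fin 4) v *ᵥ a = 0)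

lemma BQ : H.Qir * H.Qr = 1 := mul_eq_one_comm.1 H.Qr_Qir

lemma skewQ {z : Matrix ι ι ℚ} (hz : Kill H ℚ z) : z * H.Qir + H.Qir * zᵀ = 0 := by
  have h := hz.skew steps
  rwa [mLQ] at h

lemma commQ {z x : Matrix ι ι ℚ} (hz : Kill H ℚ z)
    (hx : ∀ t : ℂ, t ≠ 0 → H.l t * cQ x = cQ x * H.l t) : z * x = x * z := by
  have h := hz.comm steps hx
  rwa [mLQ] at h

include hQ in
lemma B_mem : H.Qir ∈ E0 deg ℚ := by
  intro i j hne
  by_contra h
  exact hne (hQ i j h)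

include hQr in
lemma Q_mem : H.Qr ∈ E0 deg ℚ := by
  intro i j hne
  by_contra h
  exact hne (hQr i j h)

/-- The array of an endomorphism. -/
lemma arr_endo {x : Matrix ι ι ℚ} (hx : ∀ t : ℂ, t ≠ 0 → H.l t * cQ x = cQ x * H.l t) :
    arr4 (Matrix.vecMulVec (vec2 (x * H.Qir)) (vec2 H.Qir)) ∈ BB H (Fin 4) := by
  refine mem_BB_of_kill H fun z hz => ?_
  have h1 := skewQ H hz
  have h2 : dp (Fin 2) z *ᵥ vec2 H.Qir = 0 := by rw [dp_vec2 steps, h1, map_zero]
  have h3 : dp (Fin 2) z *ᵥ vec2 (x * H.Qir) = 0 := by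
    have h4 : H.Qir * zᵀ = -(z * H.Qir) := eq_neg_of_add_eq_zero_right h1
    rw [dp_vec2 steps, Matrix.mul_assoc x, h4, Matrix.mul_neg, ← Matrix.mul_assoc,
      ← Matrix.mul_assoc, commQ H hz hx, add_neg_cancel, map_zero]
  have h5 : dp (Fin 4) z *ᵥ arr4 (Matrix.vecMulVec (vec2 (x * H.Qir)) (vec2 H.Qir)) = 0 := by
    rw [dp_arr4_vec steps h2, h3]
    ext w
    simp [arr4, arr, Pool.Agent.N996.BP.rei, Matrix.vecMulVec_apply]
  exact h5

include hQ in
lemma arr_even {x : Matrix ι ι ℚ} (hx : x ∈ E0 deg ℚ) (w : Fin 4 → ι)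
    (hw : arr4 (Matrix.vecMulVec (vec2 (x * H.Qir)) (vec2 H.Qir)) w ≠ 0) :
    Even (∑ k, deg (w k)) := by
  have hB := B_mem H hQ
  refine arr4_even (fun v w hvw => ?_) hw
  rw [Matrix.vecMulVec_apply, vec2_apply, vec2_apply] at hvw
  constructor
  · by_contra hne
    exact hvw (by rw [E0_mul hx hB _ _ hne, zero_mul])
  · by_contra hne
    exact hvw (by rw [hB _ _ hne, mul_zero])

include o in
lemma exists_B : ∃ w : Fin 2 → ι, vec2 H.Qir w ≠ 0 := by
  by_contra hc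
  push Not at hc
  have h3 : (H.Qir * H.Qr) o o = 0 := by
    rw [Matrix.mul_apply]
    exact Finset.sum_eq_zero fun j _ => by
      have h := hc ![o, j]
      rw [vec2_apply] at h
      have h' : H.Qir o j = 0 := h
      rw [h', zero_mul]
  rw [BQ H, Matrix.one_apply_eq] at h3
  exact one_ne_zero h3

include hQ o hv

lemma v_b : dp (Fin 2) v *ᵥ vec2 H.Qir = 0 := by
  have hone : (1 : Matrix ι ι ℚ) ∈ E0 deg ℚ := by
    intro i j hne
    rw [Matrix.one_apply_ne]
    rintro rfl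
    exact hne rfl
  have h1 := hv _ (arr_endo H (x := 1) fun t _ => by rw [cQ_one, Matrix.mul_one, Matrix.one_mul])
    (arr_even H hQ hone)
  rw [Matrix.one_mul, dp_arr4 steps, Matrix.mul_vecMulVec, Matrix.vecMulVec_mul,
    Matrix.vecMul_transpose] at h1
  have h2 := arr4_injective (h1.trans arr4_zero.symm)
  obtain ⟨w, hw⟩ := exists_B H o
  have h3 : ∀ a b, (dp (Fin 2) v *ᵥ vec2 H.Qir) a * vec2 H.Qir b +
      vec2 H.Qir a * (dp (Fin 2) v *ᵥ vec2 H.Qir) b = 0 := fun a b => congrFun (congrFun h2 a) b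
  have h4 : (dp (Fin 2) v *ᵥ vec2 H.Qir) w = 0 := by
    have h5 := h3 w w
    have h6 : 2 * ((dp (Fin 2) v *ᵥ vec2 H.Qir) w * vec2 H.Qir w) = 0 := by linear_combination h5
    rcases mul_eq_zero.1 h6 with h7 | h7
    · norm_num at h7
    · exact (mul_eq_zero.1 h7).resolve_right hw
  funext a
  have h5 := h3 a w
  rw [h4, mul_zero, add_zero] at h5
  exact (mul_eq_zero.1 h5).resolve_right hw

lemma v_skew : v * H.Qir + H.Qir * vᵀ = 0 := by
  have h := v_b H hQ o hv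
  rw [dp_vec2 steps] at h
  exact (LinearEquiv.map_eq_zero_iff _).1 h

/-- `v` commutes with the endomorphisms. -/
lemma v_comm {x : Matrix ι ι ℚ} (hx : En H deg x) : v * x = x * v := by
  have h1 := hv _ (arr_endo H hx.2) (arr_even H hQ hx.1)
  rw [dp_arr4_vec steps (v_b H hQ o hv)] at h1
  have h2 := arr4_injective (h1.trans arr4_zero.symm)
  obtain ⟨w, hw⟩ := exists_B H o
  have h3 : dp (Fin 2) v *ᵥ vec2 (x * H.Qir) = 0 := by
    funext a
    have h4 : (dp (Fin 2) v *ᵥ vec2 (x * H.Qir)) a * vec2 H.Qir w = 0 :=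
      congrFun (congrFun h2 a) w
    exact (mul_eq_zero.1 h4).resolve_right hw
  rw [dp_vec2 steps] at h3
  have h4 := (LinearEquiv.map_eq_zero_iff _).1 h3
  have h5 : H.Qir * vᵀ = -(v * H.Qir) := eq_neg_of_add_eq_zero_right (v_skew H hQ o hv)
  rw [Matrix.mul_assoc x, h5, Matrix.mul_neg, ← Matrix.mul_assoc, ← Matrix.mul_assoc,
    ← sub_eq_add_neg, ← Matrix.sub_mul] at h4
  have h6 := congrArg (fun M => M * H.Qr) h4
  simp only [Matrix.mul_assoc, BQ H, Matrix.mul_one, Matrix.zero_mul] at h6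
  exact eq_of_sub_eq_zero h6

include hl in
lemma v_deg : v ∈ E0 deg ℚ := by
  intro i j hne
  have hx : En H deg (Matrix.diagonal fun k => if deg k = deg i then (1 : ℚ) else 0) := by
    constructor
    · intro a b hab
      rw [Matrix.diagonal_apply_ne]
      rintro rfl
      exact hab rfl
    · intro t ht
      ext a b
      have h2 : cQ (Matrix.diagonal fun k => if deg k = deg i then (1 : ℚ) else 0) =
          Matrix.diagonal fun k => if deg k = deg i then (1 : ℂ) else 0 := by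
        ext a b
        simp only [cQ, Matrix.map_apply, Matrix.diagonal_apply]
        split_ifs <;> simp
      rw [h2, Matrix.mul_diagonal, Matrix.diagonal_mul]
      by_cases h3 : H.l t a b = 0
      · rw [h3, zero_mul, mul_zero]
      · rw [hl t ht a b h3, mul_comm]
  have h1 := congrFun (congrFun (v_comm H hQ o hv hx) i) j
  rw [Matrix.mul_diagonal, Matrix.diagonal_mul, if_pos rfl, one_mul,
    if_neg (fun h => hne h.symm), mul_zero] at h1
  exact h1.symm

include hPR hQr hl in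
/-- **The core lemma.** -/
theorem c1 (hn : CS H deg) : Kill H ℚ v := by
  obtain ⟨p, hp1, hp2, hp3, hp4⟩ := hPR ι H deg fun y hy i j h => hy.deg steps hl h
  have hB := B_mem H hQ
  have hQm := Q_mem H hQr
  have hE : ∀ x, p x ∈ E0 deg ℚ := by
    intro x i j hne
    by_contra h
    exact hne ((hp1 x).deg steps hl h)
  have hα0 : ∀ y : Matrix ι ι ℚ, y * H.Qir + H.Qir * yᵀ = 0 →
      (dp (Fin 4) y *ᵥ arr4 (opP H.Qir H.Qr p * kp (Fin 2) H.Qir) = 0 ↔
        ∀ z, p (y * z - z * y) = y * p z - p z * y) := by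
    intro y hy
    rw [dp_arr4_eq_zero steps (BQ H) hy, opP_comm steps (BQ H) p hy]
  have hα1 : arr4 (opP H.Qir H.Qr p * kp (Fin 2) H.Qir) ∈ BB H (Fin 4) :=
    mem_BB_of_kill H fun z hz => (hα0 z (skewQ H hz)).2 (hp4 z hz)
  have hpv : ∀ z, p (v * z - z * v) = v * p z - p z * v := by
    refine (hα0 v (v_skew H hQ o hv)).1 (hv _ hα1 fun w hw => ?_)
    refine arr4_even (fun a b hab => opP_support hB hQm hE (fun x hx => hp3 x ?_) hab) hw
    intro i j hij
    have h := congrFun (congrFun hx i) j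
    rw [p0_apply, if_pos hij] at h
    exact h
  -- the difference
  have hxy : ∀ y, Kill H ℚ y → y * (v - p v) = (v - p v) * y := by
    intro y hy
    have h1 := hpv y
    rw [hp2 y hy] at h1
    have h2 := hp4 y hy v
    have h3 : y * v - v * y = -(v * y - y * v) := by abel
    rw [h3, map_neg, h1] at h2
    rw [Matrix.mul_sub, Matrix.sub_mul, ← sub_eq_zero]
    have h4 : y * v - y * p v - (v * y - p v * y) = (y * v - v * y) - (y * p v - p v * y) := by abel
    rw [h4, ← h2]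
    abel
  have hsk := v_skew H hQ o hv
  have hskp := skewQ H (hp1 v)
  have hx1 : En H deg (v - p v) := by
    refine ⟨Submodule.sub_mem _ (v_deg H hl hQ o hv) (hE v), fun t ht => endo_of_BB H ?_ ht⟩
    refine mem_BB_of_kill H fun z hz => ?_
    have h1 : H.Qir * zᵀ = -(z * H.Qir) := eq_neg_of_add_eq_zero_right (skewQ H hz)
    have h2 : dp (Fin 2) z *ᵥ vec2 ((v - p v) * H.Qir) = 0 := by
      rw [dp_vec2 steps, Matrix.mul_assoc (v - p v), h1, Matrix.mul_neg, ← Matrix.mul_assoc,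
        ← Matrix.mul_assoc, hxy z hz, add_neg_cancel, map_zero]
    exact h2
  have h1 := hn (v - p v) hx1 fun y hy => by
    rw [Matrix.sub_mul, Matrix.mul_sub, v_comm H hQ o hv hy, commQ H (hp1 v) hy.2]
  have h2 : (v - p v) * H.Qir + H.Qir * (v - p v)ᵀ = 0 := by
    rw [Matrix.sub_mul, Matrix.transpose_sub, Matrix.mul_sub]
    have h3 : v * H.Qir - p v * H.Qir + (H.Qir * vᵀ - H.Qir * (p v)ᵀ) =
        (v * H.Qir + H.Qir * vᵀ) - (p v * H.Qir + H.Qir * (p v)ᵀ) := by abel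
    rw [h3, hsk, hskp, sub_zero]
  rw [← h1] at h2
  have h3 : (v - p v) * H.Qir = 0 := by
    ext i j
    have h4 := congrFun (congrFun h2 i) j
    rw [Matrix.add_apply, Matrix.zero_apply] at h4
    rw [Matrix.zero_apply]
    linarith
  have h4 := congrArg (fun M => M * H.Qr) h3
  simp only [Matrix.mul_assoc, BQ H, Matrix.mul_one, Matrix.zero_mul] at h4
  rw [eq_of_sub_eq_zero h4]
  exact hp1 v

end core

/-- The Hodge arrays of degree four with even support. -/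
def T4 (H : HData ι) (deg : ι → ℕ) : ∀ n, Set (Tensor ι n ℚ)
  | 4 => {a | a ∈ BB H (Fin 4) ∧ ∀ w, a w ≠ 0 → Even (∑ k, deg (w k))}
  | _ => ∅

/-- The core lemma over fields of characteristic zero. -/
theorem c1L (hPR : S_PR) (H : HData ι) {deg : ι → ℕ}
    (hl : ∀ t : ℂ, t ≠ 0 → ∀ i j, H.l t i j ≠ 0 → deg i = deg j)
    (hQ : ∀ i j, H.Qir i j ≠ 0 → deg i = deg j) (hQr : ∀ i j, H.Qr i j ≠ 0 → deg i = deg j)
    (o : ι) (hn : CS H deg) {L : Type} [Field L] [CharZero L] {v : Matrix ι ι L}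
    (hv : ∀ a ∈ BB H (Fin 4), (∀ w, a w ≠ 0 → Even (∑ k, deg (w k))) →
      dp (Fin 4) v *ᵥ aL L a = 0) : Kill H L v := by
  have h1 : IsCombM {z : Matrix ι ι ℚ | ∀ n, ∀ a ∈ T4 H deg n, der z a = 0} v := by
    rw [kil_iff]
    intro n a ha
    match n, a, ha with
    | 4, a, ha =>
      rw [der_eq]
      exact hv a ha.1 ha.2
  refine mem_killAll.1 (Pool.Agent.N202.CF.IsCombM.ind (V := killAll H L steps) (fun z hz => ?_) h1)
  rw [mem_killAll]
  refine Pool.Agent.N738.TB.kill_cast H L z (c1 hPR H hl hQ hQr o (fun a ha he => ?_) hn)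
  have h2 := hz 4 a ⟨ha, he⟩
  rwa [der_eq] at h2

end Pool.Agent.N202.NC
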