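import Pool.Agent.N202.NC.Br
import Pool.Agent.N490.NC.HD
import Pool.Agent.N891.NC.Pr

/-!
# Matrices which commute with the Lie algebra and with the endomorphisms
-/

set_option linter.unusedSectionVars false

namespace Pool.Agent.N202.NC

open Matrix ComplexConjugate
open Pool.Agent.N996.BP Pool.Agent.N202.TB
open Pool.Agent.N202.CF (Tensor inL IsComb act matL der kil_iff IsCombM der_eq combM_of_eqs)

variable {ι : Type} [Fintype ι] [DecidableEq ι]

/-- Rational equations: commutation with rational matrices, degrees. -/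
lemma comm_comb (S : Set (Matrix ι ι ℚ)) (deg : ι → ℕ) {L : Type} [Field L] [CharZero L]
    {x : Matrix ι ι L} (hx : ∀ m ∈ S, matL L m * x = x * matL L m) (hd : x ∈ E0 deg L) :
    IsCombM {z : Matrix ι ι ℚ | (∀ m ∈ S, m * z = z * m) ∧ z ∈ E0 deg ℚ} x := by
  have key : ∀ (F : Type) [Field F] [CharZero F] (m : Matrix ι ι ℚ) (z : Matrix ι ι F) (i j : ι),
      ∑ q : ι × ι, (((if q.2 = j then m i q.1 else 0) - (if q.1 = i then m q.2 j else 0) : ℚ) : F) *
        z q.1 q.2 = (matL F m * z) i j - (z * matL F m) i j := by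
    intro F _ _ m z i j
    rw [Fintype.sum_prod_type, Matrix.mul_apply, Matrix.mul_apply]
    have h1 : ∀ a b : ι, (((if b = j then m i a else 0) - (if a = i then m b j else 0) : ℚ) : F) *
        z a b = (if b = j then (m i a : F) * z a b else 0) -
          (if a = i then z a b * (m b j : F) else 0) := by
      intro a b
      split_ifs <;> push_cast <;> ring
    simp only [h1, Finset.sum_sub_distrib]
    congr 1
    · refine Finset.sum_congr rfl fun a _ => ?_
      rw [Finset.sum_ite_eq' Finset.univ j, if_pos (Finset.mem_univ _)]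
      rfl
    · rw [Finset.sum_comm]
      refine Finset.sum_congr rfl fun a _ => ?_
      rw [Finset.sum_ite_eq' Finset.univ i, if_pos (Finset.mem_univ _)]
      rfl
  have key2 : ∀ (F : Type) [Field F] [CharZero F] (z : Matrix ι ι F) (i j : ι),
      ∑ q : ι × ι, ((if q = (i, j) then 1 else 0 : ℚ) : F) * z q.1 q.2 = z i j := by
    intro F _ _ z i j
    have h1 : ∀ q : ι × ι, ((if q = (i, j) then 1 else 0 : ℚ) : F) * z q.1 q.2 =
        if q = (i, j) then z q.1 q.2 else 0 := by
      intro q
      split_ifs <;> simp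
    simp only [h1]
    rw [Finset.sum_ite_eq' Finset.univ (i, j), if_pos (Finset.mem_univ _)]
  have h := combM_of_eqs {p : ι × ι → ℚ | (∃ m ∈ S, ∃ i j, p = fun q =>
      (if q.2 = j then m i q.1 else 0) - (if q.1 = i then m q.2 j else 0)) ∨
      ∃ i j, deg i ≠ deg j ∧ p = fun q => if q = (i, j) then 1 else 0} x (by
    rintro p (⟨m, hm, i, j, rfl⟩ | ⟨i, j, hij, rfl⟩)
    · have h1 := key L m x i j
      rw [hx m hm, sub_self] at h1
      exact h1
    · have h1 := key2 L x i j
      rw [hd i j hij] at h1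
      exact h1)
  refine h.mono ?_
  intro z hz
  constructor
  · intro m hm
    ext i j
    have h1 := hz _ (Or.inl ⟨m, hm, i, j, rfl⟩)
    have h2 := key ℚ m z i j
    have h3 : matL ℚ m = m := by
      ext a b
      exact Rat.cast_id _
    rw [h3] at h2
    simp only [Rat.cast_id] at h2
    rw [h1] at h2
    exact (eq_of_sub_eq_zero h2.symm)
  · intro i j hij
    have h1 := hz _ (Or.inr ⟨i, j, hij, rfl⟩)
    have h2 := key2 ℚ z i j
    simp only [Rat.cast_id] at h2
    rw [← h2]
    exact h1

/-- Matrices which commute with the Lie algebra and with the endomorphisms are self-adjoint. -/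
lemma self_adjoint {H : HData ι} {deg : ι → ℕ} (hn : CS H deg) {L : Type} [Field L] [CharZero L]
    {x : Matrix ι ι L} (hd : x ∈ E0 deg L)
    (h1 : ∀ y, Kill H ℚ y → mL L y * x = x * mL L y)
    (h2 : ∀ e, En H deg e → mL L e * x = x * mL L e) :
    x * mL L H.Qir = mL L H.Qir * xᵀ := by
  have h := comm_comb ({y | Kill H ℚ y} ∪ {e | En H deg e}) deg (x := x) (by
    rintro m (hm | hm)
    · exact h1 m hm
    · exact h2 m hm) hd
  have h3 : x ∈ LinearMap.ker ((LinearMap.mulRight L (mL L H.Qir)) -
      (LinearMap.mulLeft L (mL L H.Qir)) ∘ₗ (Matrix.transposeLinearEquiv ι ι L L).toLinearMap) := by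
    refine h.ind fun z hz => ?_
    obtain ⟨hz1, hz2⟩ := hz
    have hz3 : En H deg z := by
      refine ⟨hz2, fun t ht => endo_of_BB H (mem_BB_of_kill H fun y hy => ?_) ht⟩
      have h4 : H.Qir * yᵀ = -(y * H.Qir) := eq_neg_of_add_eq_zero_right (skewQ H hy)
      have h5 : dp (Fin 2) y *ᵥ vec2 (z * H.Qir) = 0 := by
        rw [dp_vec2 steps, Matrix.mul_assoc z, h4, Matrix.mul_neg, ← Matrix.mul_assoc,
          ← Matrix.mul_assoc, hz1 y (Or.inl hy), add_neg_cancel, map_zero]
      exact h5
    have h4 := hn z hz3 fun y hy => (hz1 y (Or.inr hy)).symm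
    rw [LinearMap.mem_ker, LinearMap.sub_apply, LinearMap.mulRight_apply, LinearMap.comp_apply,
      LinearMap.mulLeft_apply, sub_eq_zero]
    have h5 := congrArg (mL L) h4
    rw [mL_mul, mL_mul] at h5
    exact h5
  rw [LinearMap.mem_ker, LinearMap.sub_apply, LinearMap.mulRight_apply, LinearMap.comp_apply,
    LinearMap.mulLeft_apply, sub_eq_zero] at h3
  exact h3

/-- Self-adjoint and skew matrices vanish. -/
lemma eq_zero_of_skew {L : Type} [Field L] [CharZero L] {B Q x : Matrix ι ι L} (hBQ : B * Q = 1)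
    (h1 : x * B = B * xᵀ) (h2 : x * B + B * xᵀ = 0) : x = 0 := by
  rw [← h1] at h2
  have h3 : x * B = 0 := by
    ext i j
    have h4 := congrFun (congrFun h2 i) j
    rw [Matrix.add_apply, Matrix.zero_apply, ← two_mul] at h4
    rw [Matrix.zero_apply]
    exact (mul_eq_zero.1 h4).resolve_left two_ne_zero
  have h4 := congrArg (fun M => M * Q) h3
  simp only [Matrix.mul_assoc, hBQ, Matrix.mul_one, Matrix.zero_mul] at h4
  exact h4

end Pool.Agent.N202.NC
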