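import Pool.Agent.N202.NC.Defs

/-!
# Comparison of the cohomology of conjugate varieties: definitions

`X` is a smooth projective complex variety, `σ` an automorphism of `ℂ`, `X_σ` the conjugate variety.
The cohomology groups `H(X, ℚ)` and `H(X_σ, ℚ)` have homogeneous bases indexed by the same set `ι`.
-/

namespace Pool.Agent.N202.NC

open Matrix
open Pool.Agent.N202.CF (Tensor inL act)

variable {ι : Type} [Fintype ι] [DecidableEq ι]

/-- The comparison of `H(X)` and `H(X_σ)` with coefficients in `L` (`L = ℂ`, de Rham cohomology, or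
`L = ℚ_ℓ`, étale cohomology): `e` is the matrix of the map `w ↦ w_σ` on the rational classes, with
respect to the bases of `H(X, ℚ)` and of `H(X_σ, ℚ)`, and `c` is the factor for the Tate twist:
`σ(2πi) c = 2πi` in `ℂ` (similarly for `ℚ_ℓ(1)`), so that `v = (2πi)^j a`, `a ∈ H^(2j)(X^n, ℚ)`, has
the conjugate `v_σ = (2πi)^j (c^(-j) e a)`. -/
structure IsComparison (P P' : HodgeStructure ι) {L : Type} [Field L] (e : Matrix ι ι L) (c : L) :
    Prop where
  unit : IsUnit e.det
  deg : ∀ i j, e i j ≠ 0 → P'.deg i = P.deg j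
  c_ne : c ≠ 0

/-- The Hodge classes on `X^n` become linear combinations of Hodge classes on `X_σ^n` with
coefficients in the subfield `F` of `L` (for `F = ℚ`: they become Hodge classes). -/
def BecomeHodge (P P' : HodgeStructure ι) {L : Type} [Field L] [CharZero L] (e : Matrix ι ι L)
    (c : L) (F : IntermediateField ℚ L) (n : ℕ) : Prop :=
  ∀ j (a : Tensor ι n ℚ), P.IsHodge j a →
    (c ^ j)⁻¹ • act e (inL L a) ∈
      Submodule.span F (inL L '' {a' : Tensor ι n ℚ | P'.IsHodge j a'})

end Pool.Agent.N202.NC
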