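import Pool.Agent.N202.NC.Defs

/-!
# De Rham–Betti classes: definitions

`X` is a smooth projective variety over `Q̄ ⊂ ℂ`, `P = H(X(ℂ), ℚ)`.
-/

namespace Pool.Agent.N202.NC

open Matrix
open Pool.Agent.N202.CF (Tensor inL act matL der)

variable {ι : Type} [Fintype ι] [DecidableEq ι]

/-- `e` is a period matrix of `X`: the matrix of the comparison isomorphism
`H_B(X) ⊗ ℂ → H_dR(X/Q̄) ⊗ ℂ` with respect to the rational basis of `H_B(X) = H(X(ℂ), ℚ)` and a
homogeneous `Q̄`-basis of `H_dR(X/Q̄)`, also indexed by `ι`. -/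
structure IsPeriodMatrix (P : HodgeStructure ι) (e : Matrix ι ι ℂ) : Prop where
  unit : IsUnit e.det
  deg : ∀ i j, e i j ≠ 0 → P.deg i = P.deg j

/-- The class `(2πi)^j a ∈ H^(2j)(X^n, ℚ(j))` is a de Rham–Betti class: its image in
`H_dR(X^n) ⊗ ℂ` is in `H_dR(X^n/Q̄)`. -/
def IsDRB (P : HodgeStructure ι) (e : Matrix ι ι ℂ) {n : ℕ} (j : ℕ) (a : Tensor ι n ℚ) : Prop :=
  HasDegree P.deg a (2 * j) ∧
    ∀ v, IsAlgebraic ℚ ((2 * Real.pi * Complex.I) ^ j * act e (inL ℂ a) v)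

/-- The endomorphism `x` of `H_B(X)` kills the de Rham–Betti classes on all powers of `X`.  These `x`
are the Lie algebra of the de Rham–Betti group (of its part acting trivially on `ℚ(1)`) if this
group is reductive. -/
def InLieDRB (P : HodgeStructure ι) (e : Matrix ι ι ℂ) (x : Matrix ι ι ℚ) : Prop :=
  ∀ (n j : ℕ) (a : Tensor ι n ℚ), IsDRB P e j a → der x a = 0

/-- The subspace `W` of `End H_B(X)` is a de Rham–Betti subobject of `End H(X)`: its image in
`End H_dR(X) ⊗ ℂ` is defined over `Q̄`. -/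
def IsSubobject (e : Matrix ι ι ℂ) (W : Submodule ℚ (Matrix ι ι ℚ)) : Prop :=
  ∃ T : Set (Matrix ι ι ℂ), (∀ m ∈ T, ∀ i j, IsAlgebraic ℚ (m i j)) ∧
    Submodule.span ℂ {m | ∃ x ∈ W, m = e * matL ℂ x * e⁻¹} = Submodule.span ℂ T

/-- The Lie algebra has a complement in `End H(X)` which is a de Rham–Betti subobject.  (This is true
if the de Rham–Betti group of `X` is reductive.) -/
def HasComplement (P : HodgeStructure ι) (e : Matrix ι ι ℂ) : Prop :=
  ∃ W : Submodule ℚ (Matrix ι ι ℚ), IsSubobject e W ∧ (∀ x ∈ W, InLieDRB P e x → x = 0) ∧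
    ∀ x, ∃ y, InLieDRB P e y ∧ x - y ∈ W

variable (P : HodgeStructure ι) (e : Matrix ι ι ℂ)

/-- The Hodge classes on `X^n` are de Rham–Betti classes. -/
def HodgeIsDRB (n : ℕ) : Prop := ∀ j (a : Tensor ι n ℚ), P.IsHodge j a → IsDRB P e j a

/-- The de Rham–Betti classes on `X^n` are Hodge classes. -/
def DRBIsHodge (n : ℕ) : Prop := ∀ j (a : Tensor ι n ℚ), IsDRB P e j a → P.IsHodge j a

end Pool.Agent.N202.NC
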