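import Pool.Agent.N202.NC.Cent
import Pool.Agent.N427.NC.Leib
import Pool.Agent.H135R2.VS.Der

/-!
# Derivations and periods
-/

set_option linter.unusedSectionVars false

namespace Pool.Agent.N202.NC

open Matrix ComplexConjugate
open Pool.Agent.N996.BP Pool.Agent.N202.TB
open Pool.Agent.N202.CF (Tensor inL IsComb act matL der der_eq act_eq der_add_left der_smul_left)

variable {K L : Type} [Field K] [Field L] [Algebra K L]

section alg

variable [CharZero K]

lemma alg_of_der {x : L} (h : ∀ D : Derivation K L L, D x = 0) : IsAlgebraic K x := by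
  by_contra hx
  have h1 : AlgebraicIndependent K (fun _ : Unit => x) := by
    rw [algebraicIndependent_unique_type_iff]
    exact hx
  obtain ⟨D, hD⟩ := Pool.Agent.H135R2.VS.exists_der h1 (fun _ => 1)
  have h2 := hD ()
  rw [h D] at h2
  exact zero_ne_one h2

lemma der_of_alg {x : L} (hx : IsAlgebraic K x) (D : Derivation K L L) : D x = 0 := by
  by_contra h
  have h1 : AlgebraicIndependent K (fun _ : Unit => x) :=
    Pool.Agent.H135R2.VS.algInd_of_der fun v => ⟨(v () / D x) • D, fun _ => by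
      rw [Derivation.smul_apply, smul_eq_mul, div_mul_cancel₀ _ h]⟩
  rw [algebraicIndependent_unique_type_iff] at h1
  exact h1 hx

end alg

variable {ι : Type} [Fintype ι] [DecidableEq ι] [CharZero L]

/-- The twisted logarithmic derivative of the matrix `e` with inverse `e'`. -/
noncomputable def yt (deg : ι → ℕ) (e e' : Matrix ι ι L) (c : L) (D : Derivation K L L) :
    Matrix ι ι L := e' * e.map D + (-(D c / (2 * c))) • DD deg L

omit [CharZero L] in
lemma act_act (g h : Matrix ι ι L) {n : ℕ} (t : Tensor ι n L) : act g (act h t) = act (g * h) t := by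
  rw [act_eq, act_eq, act_eq, Matrix.mulVec_mulVec, kp_mul]

omit [CharZero L] in
lemma act_one {n : ℕ} (t : Tensor ι n L) : act (1 : Matrix ι ι L) t = t := by
  rw [act_eq, kp_one, Matrix.one_mulVec]

omit [CharZero L] in
lemma act_add (g : Matrix ι ι L) {n : ℕ} (s t : Tensor ι n L) :
    act g (s + t) = act g s + act g t := by
  rw [act_eq, act_eq, act_eq, Matrix.mulVec_add]

omit [CharZero L] in
lemma act_smul (g : Matrix ι ι L) {n : ℕ} (c : L) (t : Tensor ι n L) :
    act g (c • t) = c • act g t := by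
  rw [act_eq, act_eq, Matrix.mulVec_smul]

omit [CharZero L] in
lemma act_eq_zero {e e' : Matrix ι ι L} (he : e * e' = 1) {n : ℕ} {t : Tensor ι n L}
    (h : act e t = 0) : t = 0 := by
  rw [← act_one t, ← mul_eq_one_comm.1 he, ← act_act, h, act_eq, Matrix.mulVec_zero]

lemma der_DD {deg : ι → ℕ} {n j : ℕ} {t : Tensor ι n L} (hd : HasDegree deg t (2 * j)) :
    der (DD deg L) t = (2 * (j : L)) • t := by
  rw [der_eq, DD, steps.diag L ι]
  ext w
  rw [Pi.smul_apply, smul_eq_mul]
  by_cases hw : t w = 0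
  · rw [hw, mul_zero, mul_zero]
  · have h6 := hd w hw
    have h7 : ∑ k, ((deg (w k) : ℕ) : L) = 2 * (j : L) := by
      rw [← Nat.cast_sum, h6]
      push_cast
      ring
    rw [h7]

lemma D_pow (D : Derivation K L L) {c : L} (hc : c ≠ 0) (j : ℕ) :
    D (c ^ j) = (j : L) * (D c / c) * c ^ j := by
  induction j with
  | zero => simp
  | succ j ih =>
    rw [pow_succ, Derivation.leibniz, ih, smul_eq_mul, smul_eq_mul]
    push_cast
    field_simp
    ring

lemma D_inv_pow (D : Derivation K L L) {c : L} (hc : c ≠ 0) (j : ℕ) (x : L) :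
    D ((c ^ j)⁻¹ * x) = (c ^ j)⁻¹ * (D x - (j : L) * (D c / c) * x) := by
  have h1 : D (c ^ j * ((c ^ j)⁻¹ * x)) = D x := by
    rw [← mul_assoc, mul_inv_cancel₀ (pow_ne_zero _ hc), one_mul]
  rw [Derivation.leibniz, D_pow D hc, smul_eq_mul, smul_eq_mul] at h1
  have h2 : c ^ j ≠ 0 := pow_ne_zero _ hc
  rw [← h1]
  field_simp
  ring

/-- The derivative of a period. -/
lemma D_formula (D : Derivation K L L) {deg : ι → ℕ} {e e' : Matrix ι ι L} (he : e * e' = 1)
    {c : L} (hc : c ≠ 0) {n j : ℕ} {a : Tensor ι n ℚ} (hd : HasDegree deg a (2 * j))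
    (v : Fin n → ι) : D ((c ^ j)⁻¹ * act e (inL L a) v) =
      (c ^ j)⁻¹ * act e (der (yt deg e e' c D) (inL L a)) v := by
  have hd' : HasDegree deg (inL L a) (2 * j) := by
    intro w hw
    refine hd w fun h0 => hw ?_
    rw [inL, h0, Rat.cast_zero]
  rw [D_inv_pow D hc]
  congr 1
  have h1 := congrFun (Pool.Agent.N427.NC.leib_ K L D ι n e e' he a) v
  rw [h1, yt, der_add_left, der_smul_left, der_DD hd', act_add, act_smul, act_smul, Pi.add_apply,
    Pi.smul_apply, Pi.smul_apply, smul_eq_mul, smul_eq_mul]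
  field_simp
  ring

lemma inL_sum {n N : ℕ} (f : ℕ → Tensor ι n ℚ) :
    aL L (∑ j ∈ Finset.range N, f j) = ∑ j ∈ Finset.range N, inL L (f j) := by
  funext w
  simp only [aL, inL, Finset.sum_apply, Rat.cast_sum]

/-- **The core for periods**: if the periods of the Hodge classes on the fourth power are algebraic
so are those of the Hodge classes on all powers. -/
theorem alg_all [CharZero K] {P : HodgeStructure ι} (hP : P.NoCM) {e e' : Matrix ι ι L}
    (he : e * e' = 1) {c : L} (hc : c ≠ 0)
    (h4 : ∀ j (a : Tensor ι 4 ℚ), P.IsHodge j a → ∀ v, IsAlgebraic K ((c ^ j)⁻¹ * act e (inL L a) v))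
    {n j : ℕ} {a : Tensor ι (n + 1) ℚ} (ha : P.IsHodge j a) (v : Fin (n + 1) → ι) :
    IsAlgebraic K ((c ^ j)⁻¹ * act e (inL L a) v) := by
  obtain ⟨H, b⟩ := exists_br Pool.Agent.N490.NC.HD_ P
  refine alg_of_der fun D => ?_
  have hk : Kill H L (yt P.deg e e' c D) := by
    refine c1L Pool.Agent.N891.NC.t_PR H b.hl b.hQ b.hQr P.o (b.cs hP) fun a ha hev => ?_
    obtain ⟨N, f, hf, rfl⟩ := b.sum_hodge ha hev
    rw [inL_sum, Matrix.mulVec_sum]
    refine Finset.sum_eq_zero fun i _ => ?_
    have h1 : act e (der (yt P.deg e e' c D) (inL L (f i))) = 0 := by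
      funext w
      have h2 := D_formula D he hc (hf i).1 w
      rw [der_of_alg (h4 i (f i) (hf i) w)] at h2
      exact (mul_eq_zero.1 h2.symm).resolve_left (inv_ne_zero (pow_ne_zero _ hc))
    rw [← der_eq]
    exact act_eq_zero he h1
  rw [D_formula D he hc ha.1 v]
  have h1 := hk n a ((b.isHodge_iff a).1 ha).2
  have h2 : der (yt P.deg e e' c D) (inL L a) = 0 := by
    rw [der_eq]
    exact h1
  rw [h2, act_eq, Matrix.mulVec_zero, Pi.zero_apply, mul_zero]

end Pool.Agent.N202.NC
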