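import Pool.Agent.N202.NC.RatCore
import Pool.Agent.N202.NC.DRBDefs
import Pool.Agent.N202.NC.Dv

/-!
# De Rham–Betti classes
-/

set_option linter.unusedSectionVars false

namespace Pool.Agent.N202.NC

open Matrix ComplexConjugate
open Pool.Agent.N996.BP Pool.Agent.N202.TB
open Pool.Agent.N202.CF (Tensor inL IsComb act matL der der_eq act_eq der_inL inL_rat)

variable {ι : Type} [Fintype ι] [DecidableEq ι]

section comp

lemma map_der (lam : ℂ →ₗ[ℚ] ℚ) (y : Matrix ι ι ℂ) {n : ℕ} (a : Tensor ι n ℚ) (v : Fin n → ι) :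
    lam (der y (inL ℂ a) v) = der (y.map lam) a v := by
  have h1 := der_inL (L := ℚ) (y.map lam) a v
  rw [inL_rat] at h1
  rw [h1, der_inL, map_sum]
  refine Finset.sum_congr rfl fun q _ => ?_
  rw [← Rat.smul_def, map_smul, smul_eq_mul, Matrix.map_apply, Rat.cast_id]

lemma der_zero_iff (y : Matrix ι ι ℂ) {n : ℕ} (a : Tensor ι n ℚ) :
    der y (inL ℂ a) = 0 ↔ ∀ lam : ℂ →ₗ[ℚ] ℚ, der (y.map lam) a = 0 := by
  constructor
  · intro h lam
    funext v
    rw [← map_der, h, Pi.zero_apply, map_zero, Pi.zero_apply]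
  · intro h
    funext v
    rw [Pi.zero_apply, ← Module.forall_dual_apply_eq_zero_iff ℚ]
    intro lam
    rw [map_der, h lam, Pi.zero_apply]

lemma map_comm (lam : ℂ →ₗ[ℚ] ℚ) (y : Matrix ι ι ℂ) (x : Matrix ι ι ℚ) :
    (y * matL ℂ x - matL ℂ x * y).map lam = y.map lam * x - x * y.map lam := by
  ext i j
  rw [Matrix.map_apply, Matrix.sub_apply, Matrix.sub_apply, map_sub, Matrix.mul_apply,
    Matrix.mul_apply, Matrix.mul_apply, Matrix.mul_apply, map_sum, map_sum]
  congr 1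
  · refine Finset.sum_congr rfl fun k _ => ?_
    have h1 : y i k * matL ℂ x k j = (x k j) • y i k := by
      rw [Rat.smul_def, mul_comm]
      rfl
    rw [h1, map_smul, smul_eq_mul, mul_comm]
    rfl
  · refine Finset.sum_congr rfl fun k _ => ?_
    have h1 : matL ℂ x i k * y k j = (x i k) • y k j := by
      rw [Rat.smul_def]
      rfl
    rw [h1, map_smul, smul_eq_mul]
    rfl

/-- Rational components of combinations. -/
lemma map_mem {W : Submodule ℚ (Matrix ι ι ℚ)} {u : Matrix ι ι ℂ}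
    (hu : u ∈ Submodule.span ℂ {m | ∃ x ∈ W, m = matL ℂ x}) :
    ∀ lam : ℂ →ₗ[ℚ] ℚ, u.map lam ∈ W := by
  induction hu using Submodule.span_induction with
  | mem m hm =>
    obtain ⟨x, hx, rfl⟩ := hm
    intro lam
    have h1 : (matL ℂ x).map lam = lam 1 • x := by
      ext i j
      rw [Matrix.map_apply, Matrix.smul_apply, smul_eq_mul, matL, Matrix.map_apply]
      have h2 : ((x i j : ℚ) : ℂ) = (x i j) • (1 : ℂ) := by rw [Rat.smul_def, mul_one]
      rw [h2, map_smul, smul_eq_mul, mul_comm]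
    rw [h1]
    exact W.smul_mem _ hx
  | zero =>
    intro lam
    have h1 : (0 : Matrix ι ι ℂ).map lam = 0 := by
      ext i j
      simp
    rw [h1]
    exact W.zero_mem
  | add a b _ _ ha hb =>
    intro lam
    have h1 : (a + b).map lam = a.map lam + b.map lam := by
      ext i j
      simp
    rw [h1]
    exact W.add_mem (ha lam) (hb lam)
  | smul c a _ ha =>
    intro lam
    have h1 : (c • a).map lam = a.map (lam ∘ₗ LinearMap.mulLeft ℚ c) := by
      ext i j
      simp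
    rw [h1]
    exact ha _

end comp

section sub

variable (D : Derivation ℚ ℂ ℂ)

lemma map_D_mul (A B : Matrix ι ι ℂ) : (A * B).map D = A.map D * B + A * B.map D := by
  ext i j
  rw [Matrix.map_apply, Matrix.add_apply, Matrix.mul_apply, Matrix.mul_apply, Matrix.mul_apply,
    map_sum, ← Finset.sum_add_distrib]
  refine Finset.sum_congr rfl fun k _ => ?_
  rw [Derivation.leibniz, Matrix.map_apply, Matrix.map_apply, smul_eq_mul, smul_eq_mul]
  ring

lemma map_D_rat (x : Matrix ι ι ℚ) : (matL ℂ x).map D = 0 := by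
  ext i j
  rw [Matrix.map_apply, matL, Matrix.map_apply, Matrix.zero_apply]
  have h : ((x i j : ℚ) : ℂ) = algebraMap ℚ ℂ (x i j) := by rw [eq_ratCast]
  rw [h, Derivation.map_algebraMap]

lemma map_D_conj {e : Matrix ι ι ℂ} (he : e * e⁻¹ = 1) (x : Matrix ι ι ℚ) :
    (e * matL ℂ x * e⁻¹).map D =
      e * ((e⁻¹ * e.map D) * matL ℂ x - matL ℂ x * (e⁻¹ * e.map D)) * e⁻¹ := by
  have h1 : (e⁻¹).map D = -(e⁻¹ * e.map D * e⁻¹) := by
    have h2 := map_D_mul D e e⁻¹
    have h3 : (1 : Matrix ι ι ℂ).map D = 0 := by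
      have h4 := map_D_rat D (1 : Matrix ι ι ℚ)
      rwa [Pool.Agent.N202.CF.matL_one] at h4
    rw [he, h3] at h2
    have h4 : e * (e⁻¹).map D = -(e.map D * e⁻¹) := (eq_neg_of_add_eq_zero_right h2.symm)
    have h5 := congrArg (fun M => e⁻¹ * M) h4
    simp only [← Matrix.mul_assoc, mul_eq_one_comm.1 he, Matrix.one_mul, Matrix.mul_neg] at h5
    exact h5
  have h2 : e * (e⁻¹ * e.map D) = e.map D := by rw [← Matrix.mul_assoc, he, Matrix.one_mul]
  rw [map_D_mul, map_D_mul, map_D_rat, Matrix.mul_zero, add_zero, h1, Matrix.mul_sub,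
    Matrix.sub_mul, ← Matrix.mul_assoc e (e⁻¹ * e.map D), h2, Matrix.mul_neg, sub_eq_add_neg]
  simp only [Matrix.mul_assoc]

/-- Subobjects are stable. -/
lemma sub_stable {e : Matrix ι ι ℂ} (he : e * e⁻¹ = 1) {W : Submodule ℚ (Matrix ι ι ℚ)}
    (hW : IsSubobject e W) {x : Matrix ι ι ℚ} (hx : x ∈ W) (lam : ℂ →ₗ[ℚ] ℚ) :
    (e⁻¹ * e.map D).map lam * x - x * (e⁻¹ * e.map D).map lam ∈ W := by
  obtain ⟨T, hT, hs⟩ := hW
  have hA : ∀ m ∈ Submodule.span ℂ T, m.map D ∈ Submodule.span ℂ T := by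
    intro m hm
    induction hm using Submodule.span_induction with
    | mem t ht =>
      have h1 : t.map D = 0 := by
        ext i j
        rw [Matrix.map_apply, der_of_alg (hT t ht i j), Matrix.zero_apply]
      rw [h1]
      exact Submodule.zero_mem _
    | zero =>
      have h1 : (0 : Matrix ι ι ℂ).map D = 0 := by
        ext i j
        simp
      rw [h1]
      exact Submodule.zero_mem _
    | add a b _ _ ha hb =>
      have h1 : (a + b).map D = a.map D + b.map D := by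
        ext i j
        simp
      rw [h1]
      exact Submodule.add_mem _ ha hb
    | smul c a ha' ha =>
      have h1 : (c • a).map D = c • a.map D + D c • a := by
        ext i j
        simp only [Matrix.map_apply, Matrix.smul_apply, Matrix.add_apply, smul_eq_mul]
        rw [Derivation.leibniz, smul_eq_mul, smul_eq_mul]
        ring
      rw [h1]
      exact Submodule.add_mem _ (Submodule.smul_mem _ _ ha) (Submodule.smul_mem _ _ ha')
  have h1 : (e * matL ℂ x * e⁻¹).map D ∈ Submodule.span ℂ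
      {m | ∃ x ∈ W, m = e * matL ℂ x * e⁻¹} := by
    rw [hs]
    refine hA _ ?_
    rw [← hs]
    exact Submodule.subset_span ⟨x, hx, rfl⟩
  rw [map_D_conj D he] at h1
  have h2 := Submodule.mem_map_of_mem
    (f := (LinearMap.mulLeft ℂ e⁻¹) ∘ₗ (LinearMap.mulRight ℂ e)) h1
  rw [Submodule.map_span] at h2
  have hc : ∀ u : Matrix ι ι ℂ, ((LinearMap.mulLeft ℂ e⁻¹) ∘ₗ (LinearMap.mulRight ℂ e))
      (e * u * e⁻¹) = u := by
    intro u
    rw [LinearMap.comp_apply, LinearMap.mulRight_apply, LinearMap.mulLeft_apply, Matrix.mul_assoc,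
      mul_eq_one_comm.1 he, Matrix.mul_one, ← Matrix.mul_assoc, mul_eq_one_comm.1 he,
      Matrix.one_mul]
  rw [hc] at h2
  rw [← map_comm]
  refine map_mem (Submodule.span_mono ?_ h2) lam
  rintro _ ⟨_, ⟨z, hz, rfl⟩, rfl⟩
  exact ⟨z, hz, hc _⟩

end sub

section main

variable {P : HodgeStructure ι} {e : Matrix ι ι ℂ} (hE : IsPeriodMatrix P e)

/-- The period of `ℚ(1)`, inverted. -/
noncomputable def cc : ℂ := (2 * Real.pi * Complex.I)⁻¹

lemma cc_ne : cc ≠ 0 := inv_ne_zero Complex.two_pi_I_ne_zero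

lemma cc_pow (j : ℕ) : (cc ^ j)⁻¹ = (2 * Real.pi * Complex.I) ^ j := by
  rw [cc, inv_pow, inv_inv]

variable (P e) in
/-- The rational components of the logarithmic derivatives. -/
def VV : Set (Matrix ι ι ℚ) :=
  {v | ∃ (D : Derivation ℚ ℂ ℂ) (lam : ℂ →ₗ[ℚ] ℚ), v = (yt P.deg e e⁻¹ cc D).map lam}

include hE

lemma e_inv : e * e⁻¹ = 1 := Matrix.mul_nonsing_inv e hE.unit

lemma e_mem : e ∈ E0 P.deg ℂ := by
  intro i j hne
  by_contra h
  exact hne (hE.deg i j h)

lemma einv_mem : e⁻¹ ∈ E0 P.deg ℂ := by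
  have h2 : p0 P.deg ℂ (e⁻¹ * e) = p0 P.deg ℂ e⁻¹ * e := p0_mul_right (e_mem hE) _
  have h3 : p0 P.deg ℂ (1 : Matrix ι ι ℂ) = 1 := p0_of_mem fun i j hne => by
    rw [Matrix.one_apply_ne]
    rintro rfl
    exact hne rfl
  rw [mul_eq_one_comm.1 (e_inv hE), h3] at h2
  have h4 : p0 P.deg ℂ e⁻¹ = e⁻¹ := by
    have h5 := congrArg (fun M => M * e⁻¹) h2
    simp only [Matrix.one_mul] at h5
    rw [Matrix.mul_assoc, e_inv hE, Matrix.mul_one] at h5
    exact h5.symm
  rw [← h4]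
  exact p0_mem _

lemma y1_mem (D : Derivation ℚ ℂ ℂ) : e⁻¹ * e.map D ∈ E0 P.deg ℂ := by
  refine E0_mul (einv_mem hE) fun i j hne => ?_
  rw [Matrix.map_apply, e_mem hE i j hne, map_zero]

lemma VV_sub {v : Matrix ι ι ℚ} (hv : v ∈ VV P e) : v ∈ E0 P.deg ℚ := by
  obtain ⟨D, lam, rfl⟩ := hv
  intro i j hne
  have h : yt P.deg e e⁻¹ cc D ∈ E0 P.deg ℂ :=
    Submodule.add_mem _ (y1_mem hE D) (Submodule.smul_mem _ _ DD_mem)
  rw [Matrix.map_apply, h i j hne, map_zero]

/-- De Rham–Betti classes are killed. -/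
lemma drb_iff {n j : ℕ} {a : Tensor ι n ℚ} (hd : HasDegree P.deg a (2 * j)) :
    (∀ v, IsAlgebraic ℚ ((2 * Real.pi * Complex.I) ^ j * act e (inL ℂ a) v)) ↔ KB (VV P e) a := by
  constructor
  · rintro h _ ⟨D, lam, rfl⟩
    rw [← der_eq]
    refine (der_zero_iff _ a).1 ?_ lam
    refine act_eq_zero (e_inv hE) ?_
    funext v
    have h1 := D_formula D (e_inv hE) cc_ne hd v
    rw [cc_pow, der_of_alg (h v)] at h1
    exact (mul_eq_zero.1 h1.symm).resolve_left (pow_ne_zero _ Complex.two_pi_I_ne_zero)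
  · intro h v
    refine alg_of_der fun D => ?_
    have h1 := D_formula D (e_inv hE) cc_ne hd v
    rw [cc_pow] at h1
    have h2 : der (yt P.deg e e⁻¹ cc D) (inL ℂ a) = 0 := by
      rw [der_zero_iff]
      intro lam
      rw [der_eq]
      exact h _ ⟨D, lam, rfl⟩
    rw [h1, h2, act_eq, Matrix.mulVec_zero, Pi.zero_apply, mul_zero]

/-- Part (1). -/
theorem drb_main1 (hP : P.NoCM) (h4 : HodgeIsDRB P e 4) {n : ℕ} (hn : 0 < n) :
    HodgeIsDRB P e n := by
  cases n with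
  | zero => exact absurd hn (lt_irrefl 0)
  | succ n =>
  intro j a ha
  refine ⟨ha.1, fun v => ?_⟩
  have h := alg_all (K := ℚ) hP (e_inv hE) cc_ne (fun j a ha v => by
    rw [cc_pow]
    exact (h4 j a ha).2 v) ha v
  rwa [cc_pow] at h

lemma KB_comp {n : ℕ} {a : Tensor ι n ℚ} (h : KB (VV P e) a) (d : ℕ) :
    KB (VV P e) (TB.comp P.deg d a) := by
  intro v hv
  rw [dp_comp (VV_sub hE hv), h v hv]
  funext w
  simp [TB.comp]

/-- The components of killed arrays are de Rham–Betti classes. -/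
lemma drb_comp {n : ℕ} {a : Tensor ι n ℚ} (h : KB (VV P e) a) (j : ℕ) :
    IsDRB P e j (TB.comp P.deg (2 * j) a) :=
  ⟨Br.comp_deg _ _ _, (drb_iff hE (Br.comp_deg _ _ _)).2 (KB_comp hE h _)⟩

omit hE in
variable (P e) in
/-- The Lie algebra as a subspace. -/
def WL : Submodule ℚ (Matrix ι ι ℚ) where
  carrier := {x | InLieDRB P e x}
  zero_mem' n j a _ := by
    funext v
    simp [der]
  add_mem' {x y} hx hy n j a ha := by
    rw [Pool.Agent.N202.CF.der_add_left, hx n j a ha, hy n j a ha, add_zero]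
  smul_mem' c x hx n j a ha := by
    rw [Pool.Agent.N202.CF.der_smul_left, hx n j a ha, smul_zero]

omit hE in
lemma mem_WL {x : Matrix ι ι ℚ} : x ∈ WL P e ↔ InLieDRB P e x := Iff.rfl

lemma VV_WL {v : Matrix ι ι ℚ} (hv : v ∈ VV P e) : v ∈ WL P e := by
  intro n j a ha
  rw [der_eq]
  exact (drb_iff hE ha.1).1 ha.2 v hv

lemma WL_kill {w : Matrix ι ι ℚ} (hw : w ∈ WL P e) {n : ℕ} {a : Tensor ι n ℚ}
    (hev : Ev P.deg a) (ha : KB (VV P e) a) : dp (Fin n) w *ᵥ a = 0 := by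
  obtain ⟨N, hN⟩ := sum_comp P.deg hev
  rw [hN, Matrix.mulVec_sum]
  refine Finset.sum_eq_zero fun j _ => ?_
  rw [← der_eq]
  exact hw n j _ (drb_comp hE ha j)

lemma WL_bracket {v w : Matrix ι ι ℚ} (hv : v ∈ VV P e) (hw : w ∈ WL P e) :
    v * w - w * v ∈ WL P e := by
  intro n j a ha
  have h1 := VV_WL hE hv n j a ha
  have h2 := hw n j a ha
  rw [der_eq] at h1 h2
  rw [der_eq, dp_bracket, Matrix.sub_mulVec, ← Matrix.mulVec_mulVec, ← Matrix.mulVec_mulVec, h1,
    h2, Matrix.mulVec_zero, Matrix.mulVec_zero, sub_zero]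

/-- The bracket with the twisted matrices. -/
lemma VV_eq (D : Derivation ℚ ℂ ℂ) (lam : ℂ →ₗ[ℚ] ℚ) {z : Matrix ι ι ℚ} (hz : z ∈ E0 P.deg ℚ) :
    (yt P.deg e e⁻¹ cc D).map lam * z - z * (yt P.deg e e⁻¹ cc D).map lam =
      (e⁻¹ * e.map D).map lam * z - z * (e⁻¹ * e.map D).map lam := by
  have h1 : (yt P.deg e e⁻¹ cc D).map lam =
      (e⁻¹ * e.map D).map lam + (lam (-(D cc / (2 * cc)))) • DD P.deg ℚ := by
    ext i j
    rw [yt, Matrix.map_apply, Matrix.add_apply, map_add, Matrix.add_apply, Matrix.map_apply]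
    congr 1
    rw [Matrix.smul_apply, Matrix.smul_apply, DD, DD, Matrix.diagonal_apply, Matrix.diagonal_apply]
    split_ifs
    · have h2 : -(D cc / (2 * cc)) • ((P.deg i : ℕ) : ℂ) =
          ((P.deg i : ℕ) : ℚ) • (-(D cc / (2 * cc))) := by
        rw [smul_eq_mul, Rat.smul_def, Rat.cast_natCast]
        ring
      rw [h2, map_smul, smul_eq_mul, smul_eq_mul, mul_comm]
    · rw [smul_zero, map_zero, smul_zero]
  rw [h1, Matrix.add_mul, Matrix.mul_add, Matrix.smul_mul, Matrix.mul_smul, DD_comm hz]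
  abel

end main

end Pool.Agent.N202.NC
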