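import Pool.Agent.N202.CF.Defs

/-!
# Polarised Hodge structures in coordinates: definitions

In the intended use `X` is a smooth projective variety, `V = H(X, ℚ)` its cohomology in all degrees,
with a basis of homogeneous elements indexed by `ι`.  The elements of `V^(⊗ n) = H(X^n, ℚ)` are
arrays of numbers with `n` indices in `ι`.
-/

namespace Pool.Agent.N202.NC

open Matrix ComplexConjugate
open Pool.Agent.N202.CF (Tensor inL IsComb act matL)

variable {ι : Type} [Fintype ι] [DecidableEq ι]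

/-- The tensor `t` is homogeneous of degree `d`: it is in `H^d(X^n)`. -/
def HasDegree (deg : ι → ℕ) {L : Type} [Zero L] {n : ℕ} (t : Tensor ι n L) (d : ℕ) : Prop :=
  ∀ v, t v ≠ 0 → ∑ k, deg (v k) = d

/-- A polarised rational Hodge structure `V = ⨁ V^i` in coordinates. -/
structure HodgeStructure (ι : Type) [Fintype ι] [DecidableEq ι] where
  /-- the degrees of the basis vectors -/
  deg : ι → ℕ
  /-- the basis vector `1 ∈ H^0(X)` -/
  o : ι
  /-- a bound for `|p - q|` -/
  w : ℕ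
  /-- the projector of `V ⊗ ℂ` to the sum of the `V^(p,q)` with `p - q = k` -/
  π : ℤ → Matrix ι ι ℂ
  /-- the matrix of the polarisation `ψ` -/
  ψ : Matrix ι ι ℚ
  sum_π : ∑ k ∈ Finset.Icc (-w : ℤ) w, π k = 1
  π_mul : ∀ k l, π k * π l = if k = l then π k else 0
  π_conj : ∀ k, (π k).map conj = π (-k)
  π_deg : ∀ k i j, π k i j ≠ 0 → deg i = deg j
  π_o : π 0 *ᵥ Pi.single o 1 = Pi.single o 1
  ψ_deg : ∀ i j, ψ i j ≠ 0 → deg i = deg j
  ψ_π : ∀ k, (π k)ᵀ * matL ℂ ψ = matL ℂ ψ * π (-k)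
  /-- positivity: `i^(p-q) ψ(x, x̄) > 0` -/
  pos : ∀ (k : ℤ) (x : ι → ℂ), π k *ᵥ x = x → x ≠ 0 →
    ∃ r : ℝ, 0 < r ∧ Complex.I ^ k * (x ⬝ᵥ (matL ℂ ψ *ᵥ fun i => conj (x i))) = r

namespace HodgeStructure

variable (H : HodgeStructure ι)

/-- The operator which is the multiplication by `t^(p-q)` on `V^(p,q)`. -/
noncomputable def l (t : ℂ) : Matrix ι ι ℂ := ∑ k ∈ Finset.Icc (-H.w : ℤ) H.w, t ^ k • H.π k

/-- The rational tensor `a` is a Hodge class in `H^(2j)(X^n)`: it is in the sum of the `H^(p,q)`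
with `p - q = 0`. -/
def IsHodge {n : ℕ} (j : ℕ) (a : Tensor ι n ℚ) : Prop :=
  HasDegree H.deg a (2 * j) ∧ ∀ t : ℂ, t ≠ 0 → act (H.l t) (inL ℂ a) = inL ℂ a

/-- The rational matrix `x` is an endomorphism of the Hodge structure. -/
def IsEndo (x : Matrix ι ι ℚ) : Prop :=
  (∀ i j, x i j ≠ 0 → H.deg i = H.deg j) ∧ ∀ k, H.π k * matL ℂ x = matL ℂ x * H.π k

/-- `X` has no CM part: the elements of the centre of the algebra of endomorphisms of the Hodge
structure are self-adjoint for the polarisation (so the centre is a product of totally real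
fields). -/
def NoCM : Prop := ∀ x, H.IsEndo x → (∀ y, H.IsEndo y → x * y = y * x) → H.ψ * x = xᵀ * H.ψ

end HodgeStructure

end Pool.Agent.N202.NC
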