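import Pool.Agent.R885.FinAc

/-!
# Algebraic elements of finitely generated fields
-/

namespace Pool.Agent.N202.NC

open IntermediateField

/-- The algebraic elements of a finitely generated field are in a finite extension. -/
theorem exists_fin (K L : Type) [Field K] [Field L] [Algebra K L] (s : Set L) (hs : s.Finite) :
    ∃ F : IntermediateField K L, FiniteDimensional K F ∧
      ∀ x ∈ adjoin K s, IsAlgebraic K x → x ∈ F := by
  have h1 : Algebra.EssFiniteType K (adjoin K s) := by
    rw [essFiniteType_iff]
    exact fg_adjoin_of_finite hs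
  have h2 : FiniteDimensional K (algebraicClosure K (adjoin K s)) :=
    Pool.Agent.R885.fin_algClosure K (adjoin K s)
  refine ⟨lift (algebraicClosure K (adjoin K s)), ?_, ?_⟩
  · exact LinearEquiv.finiteDimensional
      (liftAlgEquiv (algebraicClosure K (adjoin K s))).toLinearEquiv
  · intro x hx hal
    refine (mem_lift (F := adjoin K s) (E := algebraicClosure K (adjoin K s)) ⟨x, hx⟩).2 ?_
    rw [mem_algebraicClosure_iff]
    exact (isAlgebraic_algebraMap_iff (A := L) (algebraMap (adjoin K s) L).injective).1 hal

/-- The same for the rational numbers. -/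
theorem exists_finQ (L : Type) [Field L] [CharZero L] (s : Set L) (hs : s.Finite) :
    ∃ F : IntermediateField ℚ L, FiniteDimensional ℚ F ∧
      ∀ x ∈ adjoin ℚ s, IsAlgebraic ℚ x → x ∈ F := by
  obtain ⟨F, h1, h2⟩ := exists_fin ℚ L s hs
  refine ⟨F, ?_, h2⟩
  convert h1

end Pool.Agent.N202.NC
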