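import Pool.Agent.N202.NC.Cent

/-!
# The core: Galois representations
-/

set_option linter.unusedSectionVars false

namespace Pool.Agent.N202.NC

open Matrix ComplexConjugate
open Pool.Agent.N996.BP Pool.Agent.N202.TB

variable {ι : Type} [Fintype ι] [DecidableEq ι] {ℓ : ℕ} [Fact ℓ.Prime] {Γ : Type} [Group Γ]
  {deg : ι → ℕ} {G : Γ → Matrix ι ι ℚ_[ℓ]} {χ : Γ → ℚ_[ℓ]}
  {U : Subgroup Γ} {Y : Γ → Matrix ι ι ℚ_[ℓ]} {lam : Γ → ℚ_[ℓ]}
  (hG : GalArr deg G χ) (H : HData ι)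
  (hl : ∀ t : ℂ, t ≠ 0 → ∀ i j, H.l t i j ≠ 0 → deg i = deg j)
  (hQ : ∀ i j, H.Qir i j ≠ 0 → deg i = deg j) (hQr : ∀ i j, H.Qr i j ≠ 0 → deg i = deg j)
  (o : ι) (hn : CS H deg)

/-- The Hodge arrays with even support are Tate arrays. -/
def HT (H : HData ι) (deg : ι → ℕ) (G : Γ → Matrix ι ι ℚ_[ℓ]) (χ : Γ → ℚ_[ℓ]) (n : ℕ) : Prop :=
  ∀ a ∈ BB H (Fin (n + 1)), (∀ w, a w ≠ 0 → Even (∑ k, deg (w k))) →
    aL ℚ_[ℓ] a ∈ tspan deg G χ n

include hG hl hQ hQr o hn in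
/-- The logarithms kill all Hodge arrays. -/
theorem kill_of_four (h4 : HT H deg G χ 3) (hL : Logs G χ U Y lam) {u : Γ} (hu : u ∈ U) :
    Kill H ℚ_[ℓ] (Yt deg Y lam u) :=
  c1L Pool.Agent.N891.NC.t_PR H hl hQ hQr o hn fun a ha he => hL.kill_tspan hG steps hu (h4 a ha he)

include hG hl hQ hQr o hn in
/-- **The core, part 1.** -/
theorem hodge_tate (h4 : HT H deg G χ 3) {n j : ℕ} {a : (Fin (n + 1) → ι) → ℚ}
    (ha : a ∈ BB H (Fin (n + 1))) (hd : ∀ w, a w ≠ 0 → ∑ k, deg (w k) = 2 * j) :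
    TateArr deg G χ n j (aL ℚ_[ℓ] a) := by
  obtain ⟨U, Y, lam, hL⟩ := exists_logs steps hG
  refine hL.tate_of_kill hG steps (fun w hw => hd w fun h => hw ?_) fun u hu =>
    kill_of_four hG H hl hQ hQr o hn h4 hL hu n a ha
  rw [aL, h, Rat.cast_zero]

/-- The skew matrices. -/
noncomputable def skewSub (B : Matrix ι ι ℚ_[ℓ]) : Submodule ℚ_[ℓ] (Matrix ι ι ℚ_[ℓ]) :=
  LinearMap.ker ((LinearMap.mulRight ℚ_[ℓ] B) +
    (LinearMap.mulLeft ℚ_[ℓ] B) ∘ₗ (Matrix.transposeLinearEquiv ι ι ℚ_[ℓ] ℚ_[ℓ]).toLinearMap)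

lemma mem_skewSub {B x : Matrix ι ι ℚ_[ℓ]} : x ∈ skewSub B ↔ x * B + B * xᵀ = 0 := by
  rw [skewSub, LinearMap.mem_ker]
  rfl

include hG hl hQ hQr o hn in
/-- **The core, part 2.** -/
theorem tate_hodge (h2 : HT H deg G χ 1) (hss : AdSS G)
    (h4 : ∀ a ∈ tspan deg G χ 3, a ∈ hspan H ℚ_[ℓ] 3) {n j : ℕ}
    {a : (Fin (n + 1) → ι) → ℚ_[ℓ]} (ha : TateArr deg G χ n j a) : a ∈ hspan H ℚ_[ℓ] n := by
  obtain ⟨U, Y, lam, hL⟩ := exists_logs steps hG
  obtain ⟨p, hp⟩ := exists_pr steps hL hG hss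
  set B : Matrix ι ι ℚ_[ℓ] := mL ℚ_[ℓ] H.Qir with hB
  set Q : Matrix ι ι ℚ_[ℓ] := mL ℚ_[ℓ] H.Qr with hQ'
  have hBQ : B * Q = 1 := mL_Qir_Qr
  have hQB : Q * B = 1 := mL_Qr_Qir
  have hmL : ∀ {M : Matrix ι ι ℚ}, M ∈ E0 deg ℚ → mL ℚ_[ℓ] M ∈ E0 deg ℚ_[ℓ] := by
    intro M hM i j hne
    rw [mL_apply, hM i j hne, Rat.cast_zero]
  have hBm : B ∈ E0 deg ℚ_[ℓ] := hmL (B_mem H hQ)
  have hQm : Q ∈ E0 deg ℚ_[ℓ] := hmL (Q_mem H hQr)
  -- the arrays with two indices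
  have hv2 : ∀ {e : Matrix ι ι ℚ}, En H deg e → ∀ u ∈ U,
      dp (Fin 2) (Yt deg Y lam u) *ᵥ vec2 (mL ℚ_[ℓ] (e * H.Qir)) = 0 := by
    intro e he u hu
    refine hL.kill_tspan hG steps hu (h2 _ (two_BB H he.2) fun w hw => ?_)
    have h3 := E0_mul he.1 (B_mem H hQ)
    have h4 : deg (w 0) = deg (w 1) := by
      by_contra hne
      exact hw (h3 _ _ hne)
    rw [Fin.sum_univ_two]
    exact ⟨deg (w 1), by rw [← h4]⟩
  have hone : En H deg (1 : Matrix ι ι ℚ) := by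
    refine ⟨fun i j hne => ?_, fun t _ => by rw [cQ_one, Matrix.mul_one, Matrix.one_mul]⟩
    rw [Matrix.one_apply_ne]
    rintro rfl
    exact hne rfl
  have hsk : ∀ u ∈ U, Yt deg Y lam u * B + B * (Yt deg Y lam u)ᵀ = 0 := by
    intro u hu
    have h3 := hv2 hone u hu
    rw [Matrix.one_mul, dp_vec2 steps] at h3
    exact (LinearEquiv.map_eq_zero_iff _).1 h3
  have hcan : ∀ {x y : Matrix ι ι ℚ_[ℓ]}, x * B = y * B → x = y := by
    intro x y h
    have h3 := congrArg (fun M => M * Q) h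
    simpa only [Matrix.mul_assoc, hBQ, Matrix.mul_one] using h3
  have hue : ∀ {e : Matrix ι ι ℚ}, En H deg e → ∀ u ∈ U,
      Yt deg Y lam u * mL ℚ_[ℓ] e = mL ℚ_[ℓ] e * Yt deg Y lam u := by
    intro e he u hu
    have h3 := hv2 he u hu
    rw [dp_vec2 steps] at h3
    have h4 := (LinearEquiv.map_eq_zero_iff _).1 h3
    have h5 : B * (Yt deg Y lam u)ᵀ = -(Yt deg Y lam u * B) :=
      eq_neg_of_add_eq_zero_right (hsk u hu)
    rw [mL_mul, Matrix.mul_assoc (mL ℚ_[ℓ] e), h5, Matrix.mul_neg, ← Matrix.mul_assoc,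
      ← Matrix.mul_assoc, ← sub_eq_add_neg, sub_eq_zero] at h4
    exact hcan h4
  have hlsk : ∀ x ∈ lie deg U Y lam, x * B + B * xᵀ = 0 := fun x hx =>
    mem_skewSub.1 ((lie_le (V := skewSub B) fun u hu => mem_skewSub.2 (hsk u hu)) hx)
  have hle : ∀ {e : Matrix ι ι ℚ}, En H deg e → ∀ x ∈ lie deg U Y lam,
      x * mL ℚ_[ℓ] e = mL ℚ_[ℓ] e * x := by
    intro e he x hx
    have h3 : x ∈ LinearMap.ker (LinearMap.mulRight ℚ_[ℓ] (mL ℚ_[ℓ] e) -
        LinearMap.mulLeft ℚ_[ℓ] (mL ℚ_[ℓ] e)) := by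
      refine lie_le (fun u hu => ?_) hx
      rw [LinearMap.mem_ker, LinearMap.sub_apply, LinearMap.mulRight_apply,
        LinearMap.mulLeft_apply, hue he u hu, sub_self]
    rw [LinearMap.mem_ker, LinearMap.sub_apply, LinearMap.mulRight_apply,
      LinearMap.mulLeft_apply, sub_eq_zero] at h3
    exact h3
  -- the array of the projector
  set α : (Fin 4 → ι) → ℚ_[ℓ] := arr4 (opP B Q p * kp (Fin 2) B) with hα
  have hα1 : ∀ y : Matrix ι ι ℚ_[ℓ], y * B + B * yᵀ = 0 →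
      (dp (Fin 4) y *ᵥ α = 0 ↔ ∀ z, p (y * z - z * y) = y * p z - p z * y) := by
    intro y hy
    rw [hα, dp_arr4_eq_zero steps hBQ hy, opP_comm steps hBQ p hy]
  have hα2 : α ∈ tspan deg G χ 3 := by
    refine hL.tspan_of_kill hG steps (fun w hw => ?_) fun u hu => (hα1 _ (hsk u hu)).2 (hp.comm u hu)
    exact arr4_even (fun v w hvw => opP_support hBm hQm (fun x => lie_le_E0 hL hG (hp.mem x))
      hp.zero hvw) hw
  have hα3 : ∀ y : Matrix ι ι ℚ_[ℓ], Kill H ℚ_[ℓ] y →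
      ∀ z, p (y * z - z * y) = y * p z - p z * y := fun y hy =>
    (hα1 y (hy.skew steps)).1 (hy.hspan (h4 α hα2))
  -- the Lie algebra of the Hodge group is contained in the span of the logarithms
  have hmain : ∀ y : Matrix ι ι ℚ_[ℓ], Kill H ℚ_[ℓ] y → y ∈ lie deg U Y lam := by
    intro y hy
    set x := y - p y with hx
    have hxu : ∀ u ∈ U, Yt deg Y lam u * x - x * Yt deg Y lam u = 0 := by
      intro u hu
      set v := Yt deg Y lam u
      have h1 := hα3 y hy v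
      rw [hp.id v (mem_lie hu)] at h1
      have h2 := hp.comm u hu y
      change p (v * y - y * v) = v * p y - p y * v at h2
      have h3 : v * y - y * v = -(y * v - v * y) := by abel
      rw [h3, map_neg, h1] at h2
      rw [hx, Matrix.mul_sub, Matrix.sub_mul]
      have h4 : v * y - v * p y - (y * v - p y * v) = (v * y - y * v) - (v * p y - p y * v) := by
        abel
      rw [h4, ← h2]
      abel
    have hxm : x ∈ E0 deg ℚ_[ℓ] := by
      refine Submodule.sub_mem _ (fun i j hne => ?_) (lie_le_E0 hL hG (hp.mem y))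
      by_contra h
      exact hne (hy.deg steps hl h)
    -- the array of `x`
    have hβ : ∀ z : Matrix ι ι ℚ_[ℓ], z * B + B * zᵀ = 0 →
        dp (Fin 2) z *ᵥ vec2 (x * B) = vec2 ((z * x - x * z) * B) := by
      intro z hz
      have h1 : B * zᵀ = -(z * B) := eq_neg_of_add_eq_zero_right hz
      rw [dp_vec2 steps, Matrix.mul_assoc x B, h1, Matrix.mul_neg, Matrix.sub_mul (z * x) (x * z) B,
        Matrix.mul_assoc z x B, Matrix.mul_assoc x z B, sub_eq_add_neg]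
    have hb : ∀ z : Matrix ι ι ℚ_[ℓ], z * B + B * zᵀ = 0 → dp (Fin 2) z *ᵥ vec2 B = 0 := by
      intro z hz
      rw [dp_vec2 steps, hz, map_zero]
    set γ : (Fin 4 → ι) → ℚ_[ℓ] := arr4 (Matrix.vecMulVec (vec2 (x * B)) (vec2 B)) with hγ
    have hγ1 : ∀ z : Matrix ι ι ℚ_[ℓ], z * B + B * zᵀ = 0 → dp (Fin 4) z *ᵥ γ =
        arr4 (Matrix.vecMulVec (vec2 ((z * x - x * z) * B)) (vec2 B)) := by
      intro z hz
      rw [hγ, dp_arr4_vec steps (hb z hz), hβ z hz]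
    have hγ2 : γ ∈ tspan deg G χ 3 := by
      refine hL.tspan_of_kill hG steps (fun w hw => ?_) fun u hu => ?_
      · refine arr4_even (fun v w hvw => ?_) hw
        rw [Matrix.vecMulVec_apply, vec2_apply, vec2_apply] at hvw
        constructor
        · by_contra hne
          exact hvw (by rw [E0_mul hxm hBm _ _ hne, zero_mul])
        · by_contra hne
          exact hvw (by rw [hBm _ _ hne, mul_zero])
      · rw [hγ1 _ (hsk u hu), hxu u hu, Matrix.zero_mul, map_zero]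
        ext w
        simp [arr4, arr, Pool.Agent.N996.BP.rei, Matrix.vecMulVec_apply]
    have hcomm : ∀ z : Matrix ι ι ℚ_[ℓ], Kill H ℚ_[ℓ] z → z * x = x * z := by
      intro z hz
      have h1 := hz.hspan (h4 γ hγ2)
      rw [hγ1 z (hz.skew steps)] at h1
      have h2 := arr4_injective (h1.trans arr4_zero.symm)
      obtain ⟨j0, hj0⟩ : ∃ j, B o j ≠ 0 := by
        by_contra hc
        push Not at hc
        have h3 : (B * Q) o o = 0 := by
          rw [Matrix.mul_apply]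
          exact Finset.sum_eq_zero fun j _ => by rw [hc j, zero_mul]
        rw [hBQ, Matrix.one_apply_eq] at h3
        exact one_ne_zero h3
      have h3 : (z * x - x * z) * B = 0 := by
        ext i j
        have h5 := congrFun (congrFun h2 ![i, j]) ![o, j0]
        rw [Matrix.vecMulVec_apply, vec2_apply, vec2_apply] at h5
        have h6 : ((z * x - x * z) * B) i j * B o j0 = 0 := h5
        exact (mul_eq_zero.1 h6).resolve_right hj0
      have h5 := congrArg (fun M => M * Q) h3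
      simp only [Matrix.mul_assoc, hBQ, Matrix.mul_one, Matrix.zero_mul] at h5
      exact eq_of_sub_eq_zero h5
    -- `x` is self-adjoint and skew
    have hsa : x * B = B * xᵀ := self_adjoint hn hxm
      (fun z hz => hcomm _ (Pool.Agent.N738.TB.kill_cast H ℚ_[ℓ] z hz)) fun e he => by
        rw [hx, Matrix.mul_sub, Matrix.sub_mul, hle he _ (hp.mem y), hy.comm steps he.2]
    have hss : x * B + B * xᵀ = 0 := mem_skewSub.1 (Submodule.sub_mem _
      (mem_skewSub.2 (hy.skew steps)) (mem_skewSub.2 (hlsk _ (hp.mem y))))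
    have h0 := eq_zero_of_skew hBQ hsa hss
    rw [eq_of_sub_eq_zero h0]
    exact hp.mem y
  exact steps.hodge ι H ℚ_[ℓ] n a fun y hy =>
    (lie_le (V := killSub steps a) fun u hu => hL.kill_tate hG steps hu ha) (hmain y hy)

end Pool.Agent.N202.NC
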