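import Pool.Agent.N202.NC.Defs

/-!
# Galois representations: definitions

`Y` is a smooth projective variety over a number field, `Γ` its absolute Galois group, `V = H(Y, ℚ)`;
the comparison theorem identifies `H(Y, ℚ_ℓ)` with `V ⊗ ℚ_ℓ`.
-/

namespace Pool.Agent.N202.NC

open Matrix
open Pool.Agent.N202.CF (Tensor inL IsComb act)

variable {ι : Type} [Fintype ι] [DecidableEq ι] {ℓ : ℕ} [Fact ℓ.Prime] {Γ : Type} [Group Γ]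

/-- The properties of the Galois representation `ρ` on `H(Y, ℚ_ℓ)` and of the character `χ` of
`ℚ_ℓ(-1)` which are used: `ρ` preserves the degrees, and both are continuous. -/
structure GaloisRep (deg : ι → ℕ) (ρ : Γ →* Matrix ι ι ℚ_[ℓ]) (χ : Γ →* ℚ_[ℓ]) : Prop where
  deg : ∀ s i j, ρ s i j ≠ 0 → deg i = deg j
  cont : ∀ ε : ℝ, 0 < ε → ∃ Δ : Subgroup Γ, Δ.FiniteIndex ∧
    ∀ s ∈ Δ, (∀ i j, ‖ρ s i j - (1 : Matrix ι ι ℚ_[ℓ]) i j‖ < ε) ∧ ‖χ s - 1‖ < ε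

/-- The tensor `t` is a Tate class in `H^(2j)(Y^n, ℚ_ℓ)`: its twist in `H^(2j)(Y^n, ℚ_ℓ(j))` is
fixed by a subgroup of finite index. -/
def IsTate (deg : ι → ℕ) (ρ : Γ →* Matrix ι ι ℚ_[ℓ]) (χ : Γ →* ℚ_[ℓ]) {n : ℕ} (j : ℕ)
    (t : Tensor ι n ℚ_[ℓ]) : Prop :=
  HasDegree deg t (2 * j) ∧ ∃ Δ : Subgroup Γ, Δ.FiniteIndex ∧ ∀ s ∈ Δ, act (ρ s) t = χ s ^ j • t

/-- The action of `Γ` on `End H(Y, ℚ_ℓ)` is semisimple, also for subgroups of finite index. -/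
def SemisimpleEnd (ρ : Γ →* Matrix ι ι ℚ_[ℓ]) : Prop :=
  ∀ Δ : Subgroup Γ, Δ.FiniteIndex → ∀ S : Submodule ℚ_[ℓ] (Matrix ι ι ℚ_[ℓ]),
    (∀ s ∈ Δ, ∀ x ∈ S, ρ s * x * ρ s⁻¹ ∈ S) →
    ∃ S' : Submodule ℚ_[ℓ] (Matrix ι ι ℚ_[ℓ]), (∀ s ∈ Δ, ∀ x ∈ S', ρ s * x * ρ s⁻¹ ∈ S') ∧
      IsCompl S S'

variable (H : HodgeStructure ι) (ρ : Γ →* Matrix ι ι ℚ_[ℓ]) (χ : Γ →* ℚ_[ℓ])

/-- The Hodge classes on `Y^k` are Tate classes: `ℋ_{j,k} ⊆ 𝒯_{j,k}` for all `j`. -/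
def HodgeInTate (k : ℕ) : Prop :=
  ∀ j (a : Tensor ι k ℚ), H.IsHodge j a → IsTate H.deg ρ χ j (inL ℚ_[ℓ] a)

/-- The Tate classes on `Y^k` are `ℚ_ℓ`-linear combinations of Hodge classes:
`𝒯_{j,k} ⊆ ℋ_{j,k}` for all `j`. -/
def TateInHodge (k : ℕ) : Prop :=
  ∀ j (t : Tensor ι k ℚ_[ℓ]), IsTate H.deg ρ χ j t → IsComb {a : Tensor ι k ℚ | H.IsHodge j a} t

end Pool.Agent.N202.NC
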