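import Pool.Agent.N202.NC.Gal
import Pool.Agent.N202.NC.GalDefs

/-!
# The theorem on Hodge and Tate classes
-/

set_option linter.unusedSectionVars false

namespace Pool.Agent.N202.NC

open Matrix ComplexConjugate
open Pool.Agent.N996.BP Pool.Agent.N202.TB
open Pool.Agent.N202.CF (Tensor inL IsComb act)

variable {ι : Type} [Fintype ι] [DecidableEq ι]

lemma comp_lin {L : Type} [Field L] (deg : ι → ℕ) {n : ℕ} (d : ℕ) :
    ∃ φ : Tensor ι n L →ₗ[L] Tensor ι n L, ∀ a, φ a = TB.comp deg d a :=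
  ⟨{ toFun := fun a => TB.comp deg d a
     map_add' := fun a b => by
       funext w
       simp only [TB.comp, Pi.add_apply]
       split_ifs <;> simp
     map_smul' := fun c a => by
       funext w
       simp only [TB.comp, Pi.smul_apply, RingHom.id_apply]
       split_ifs <;> simp }, fun _ => rfl⟩

/-- Homogeneous combinations of Hodge arrays are combinations of Hodge classes. -/
lemma isComb_of_hspan {P : HodgeStructure ι} {H : HData ι} (b : Br P H) {L : Type} [Field L]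
    [CharZero L] {n j : ℕ} {t : Tensor ι (n + 1) L} (ht : t ∈ hspan H L n)
    (hd : HasDegree P.deg t (2 * j)) : IsComb {a : Tensor ι (n + 1) ℚ | P.IsHodge j a} t := by
  obtain ⟨φ, hφ⟩ := comp_lin (L := L) P.deg (n := n + 1) (2 * j)
  rw [← Br.comp_of_deg hd, ← hφ]
  have h1 := Submodule.mem_map_of_mem (f := φ) ht
  rw [hspan, Submodule.map_span] at h1
  refine Submodule.span_mono ?_ h1
  rintro _ ⟨_, ⟨a, ha, rfl⟩, rfl⟩
  refine ⟨TB.comp P.deg (2 * j) a, (b.isHodge_iff _).2 ⟨Br.comp_deg _ _ _, b.comp_BB ha _⟩, ?_⟩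
  rw [hφ]
  funext w
  simp only [inL, TB.comp, aL]
  split_ifs <;> simp

lemma hspan_of_isComb {P : HodgeStructure ι} {H : HData ι} (b : Br P H) {L : Type} [Field L]
    [CharZero L] {n j : ℕ} {t : Tensor ι (n + 1) L}
    (ht : IsComb {a : Tensor ι (n + 1) ℚ | P.IsHodge j a} t) : t ∈ hspan H L n := by
  refine Submodule.span_mono ?_ ht
  rintro _ ⟨a, ha, rfl⟩
  exact ⟨a, ((b.isHodge_iff a).1 ha).2, rfl⟩

variable {ℓ : ℕ} [Fact ℓ.Prime] {Γ : Type} [Group Γ]

section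

variable {P : HodgeStructure ι} {ρ : Γ →* Matrix ι ι ℚ_[ℓ]} {χ : Γ →* ℚ_[ℓ]}

lemma GaloisRep.gal (h : GaloisRep P.deg ρ χ) : GalArr P.deg (fun s => ρ s) (fun s => χ s) where
  one := map_one ρ
  mul := map_mul ρ
  χone := map_one χ
  χmul := map_mul χ
  deg := h.deg
  cont := h.cont

/-- Even Hodge arrays. -/
lemma hT_of {H : HData ι} (b : Br P H) {n : ℕ}
    (h : ∀ j (a : Tensor ι (n + 1) ℚ), P.IsHodge j a → IsTate P.deg ρ χ j (inL ℚ_[ℓ] a)) :
    HT H P.deg (fun s => ρ s) (fun s => χ s) n := by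
  intro a ha he
  obtain ⟨N, f, hf, rfl⟩ := b.sum_hodge ha he
  have h1 : aL ℚ_[ℓ] (∑ j ∈ Finset.range N, f j) = ∑ j ∈ Finset.range N, aL ℚ_[ℓ] (f j) := by
    funext w
    simp only [aL, Finset.sum_apply, Rat.cast_sum]
  rw [h1]
  exact Submodule.sum_mem _ fun j _ => Submodule.subset_span ⟨j, h j (f j) (hf j)⟩

end

/-- **The main theorem.** -/
theorem main (P : HodgeStructure ι) (hP : P.NoCM) (ρ : Γ →* Matrix ι ι ℚ_[ℓ])
    (χ : Γ →* ℚ_[ℓ]) (h : GaloisRep P.deg ρ χ) :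
    (HodgeInTate P ρ χ 4 → ∀ k, 0 < k → HodgeInTate P ρ χ k) ∧
    (SemisimpleEnd ρ → HodgeInTate P ρ χ 2 → TateInHodge P ρ χ 4 →
      ∀ k, 0 < k → TateInHodge P ρ χ k) := by
  obtain ⟨H, b⟩ := exists_br Pool.Agent.N490.NC.HD_ P
  constructor
  · intro h4 k hk
    cases k with
    | zero => exact absurd hk (lt_irrefl 0)
    | succ n =>
    intro j a ha
    obtain ⟨h1, h2⟩ := (b.isHodge_iff a).1 ha
    exact hodge_tate h.gal H b.hl b.hQ b.hQr P.o (b.cs hP) (hT_of b h4) h2 h1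
  · intro hss h2 h4 k hk
    cases k with
    | zero => exact absurd hk (lt_irrefl 0)
    | succ n =>
    intro j t ht
    refine isComb_of_hspan b (tate_hodge h.gal H b.hl b.hQ b.hQr P.o (b.cs hP) (hT_of b h2) hss
      (fun a ha => ?_) (j := j) ht) ht.1
    refine (Submodule.span_le.2 ?_) ha
    rintro x ⟨i, hx⟩
    exact hspan_of_isComb b (h4 i x hx)

end Pool.Agent.N202.NC
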