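import Pool.Agent.N202.NC.Dv
import Pool.Agent.N202.NC.MainT
import Pool.Agent.N202.NC.CmpDefs
import Pool.Agent.N202.NC.FinF
import Pool.Agent.N362.CF.OpenSub

/-!
# The theorem on conjugate varieties
-/

set_option linter.unusedSectionVars false

namespace Pool.Agent.N202.NC

open Matrix ComplexConjugate
open Pool.Agent.N996.BP Pool.Agent.N202.TB
open Pool.Agent.N202.CF (Tensor inL IsComb act matL der der_eq act_eq)

variable {ι : Type} [Fintype ι] [DecidableEq ι] {P P' : HodgeStructure ι} {L : Type} [Field L]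
  [CharZero L] {e : Matrix ι ι L} {c : L}

/-- Spans over the top subfield. -/
lemma top_iff {m : Type} (T : Set (m → ℚ)) (x : m → L) :
    x ∈ Submodule.span (⊤ : IntermediateField ℚ L) (inL L '' T) ↔ IsComb T x := by
  constructor
  · intro h
    induction h using Submodule.span_induction with
    | mem x hx => exact Submodule.subset_span hx
    | zero => exact Submodule.zero_mem _
    | add a b _ _ ha hb => exact Submodule.add_mem _ ha hb
    | smul r a _ ha =>
      have h1 : r • a = (r : L) • a := rfl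
      rw [h1]
      exact Submodule.smul_mem _ _ ha
  · intro h
    induction h using Submodule.span_induction with
    | mem x hx => exact Submodule.subset_span hx
    | zero => exact Submodule.zero_mem _
    | add a b _ _ ha hb => exact Submodule.add_mem _ ha hb
    | smul r a _ ha =>
      have h1 : r • a = (⟨r, IntermediateField.mem_top⟩ : (⊤ : IntermediateField ℚ L)) • a := rfl
      rw [h1]
      exact Submodule.smul_mem _ _ ha

/-- Combinations over subfields. -/
lemma comb_of_span {F : IntermediateField ℚ L} {m : Type} {T : Set (m → ℚ)} {x : m → L}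
    (h : x ∈ Submodule.span F (inL L '' T)) : IsComb T x := by
  induction h using Submodule.span_induction with
  | mem x hx => exact Submodule.subset_span hx
  | zero => exact Submodule.zero_mem _
  | add a b _ _ ha hb => exact Submodule.add_mem _ ha hb
  | smul r a _ ha =>
    have h1 : r • a = (r : L) • a := rfl
    rw [h1]
    exact Submodule.smul_mem _ _ ha

lemma coord_of_span {F : IntermediateField ℚ L} {m : Type} {T : Set (m → ℚ)} {x : m → L}
    (h : x ∈ Submodule.span F (inL L '' T)) (i : m) : x i ∈ F := by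
  induction h using Submodule.span_induction with
  | mem x hx =>
    obtain ⟨a, _, rfl⟩ := hx
    have h1 : inL L a i = algebraMap ℚ L (a i) := by
      rw [inL, eq_ratCast]
    rw [h1]
    exact F.algebraMap_mem _
  | zero => exact F.zero_mem
  | add a b _ _ ha hb => exact F.add_mem ha hb
  | smul r a _ ha => exact F.mul_mem r.2 ha

/-- A combination over `L` with coordinates in `F` is a combination over `F`. -/
lemma span_of_comb {F : IntermediateField ℚ L} {m : Type} [Fintype m] {T : Set (m → ℚ)}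
    {x : m → L} (h : IsComb T x) (hx : ∀ i, x i ∈ F) :
    x ∈ Submodule.span F (inL L '' T) := by
  have h1 : IsComb T (fun i => (⟨x i, hx i⟩ : F)) := by
    rw [← Pool.Agent.N362.CF.sub_ F L m T (fun i => (⟨x i, hx i⟩ : F))]
    exact h
  obtain ⟨φ, hφ⟩ : ∃ φ : (m → F) →ₗ[F] (m → L), ∀ y i, φ y i = (y i : L) :=
    ⟨{ toFun := fun y i => (y i : L)
       map_add' := fun _ _ => rfl
       map_smul' := fun _ _ => rfl }, fun _ _ => rfl⟩
  have h2 := Submodule.mem_map_of_mem (f := φ) h1
  rw [Submodule.map_span] at h2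
  have h3 : φ (fun i => (⟨x i, hx i⟩ : F)) = x := by
    funext i
    rw [hφ]
  rw [h3] at h2
  refine Submodule.span_mono ?_ h2
  rintro _ ⟨_, ⟨a, ha, rfl⟩, rfl⟩
  refine ⟨a, ha, ?_⟩
  funext i
  rw [hφ]
  simp [inL]

/-- Conjugation of derivations. -/
lemma der_conj {e' : Matrix ι ι L} (he : e' * e = 1) (y : Matrix ι ι L) {n : ℕ}
    (t : Tensor ι n L) : der (e' * y * e) t = act e' (der y (act e t)) := by
  rw [der_eq, der_eq, act_eq, act_eq, Matrix.mulVec_mulVec, Matrix.mulVec_mulVec, ← dp_conj he y]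

lemma hasDegree_act (he : ∀ i j, e i j ≠ 0 → P'.deg i = P.deg j) {n d : ℕ} {t : Tensor ι n L}
    (ht : HasDegree P.deg t d) : HasDegree P'.deg (act e t) d := by
  intro v hv
  obtain ⟨w, _, hw⟩ := Finset.exists_ne_zero_of_sum_ne_zero hv
  have h1 := Finset.prod_ne_zero_iff.1 (left_ne_zero_of_mul hw)
  rw [← ht w (right_ne_zero_of_mul hw)]
  exact Finset.sum_congr rfl fun k hk => he _ _ (h1 k hk)

lemma hasDegree_inL {deg : ι → ℕ} {n d : ℕ} {a : Tensor ι n ℚ} (ha : HasDegree deg a d) :
    HasDegree deg (inL L a) d := by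
  intro w hw
  refine ha w fun h0 => hw ?_
  rw [inL, h0, Rat.cast_zero]

/-- Part (1). -/
theorem main1 (hP : P.NoCM) (h : IsComparison P P' e c) (h4 : BecomeHodge P P' e c ⊤ 4) {n j : ℕ}
    {a : Tensor ι (n + 1) ℚ} (ha : P.IsHodge j a) :
    IsComb {a' : Tensor ι (n + 1) ℚ | P'.IsHodge j a'} ((c ^ j)⁻¹ • act e (inL L a)) := by
  obtain ⟨H, b⟩ := exists_br Pool.Agent.N490.NC.HD_ P
  obtain ⟨H', b'⟩ := exists_br Pool.Agent.N490.NC.HD_ P'
  obtain ⟨e', he'⟩ : ∃ e' : Matrix ι ι L, e' * e = 1 :=
    ⟨e⁻¹, Matrix.nonsing_inv_mul e h.unit⟩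
  have hcj : ∀ j, (c ^ j)⁻¹ ≠ 0 := fun j => inv_ne_zero (pow_ne_zero _ h.c_ne)
  refine Submodule.smul_mem _ _ (isComb_of_hspan b' (L := L) ?_
    (hasDegree_act h.deg (hasDegree_inL ha.1)))
  refine Pool.Agent.N738.TB.hodge_ ι H' L n _ fun y hy => ?_
  have hk : Kill H L (e' * y * e) := by
    refine c1L Pool.Agent.N891.NC.t_PR H b.hl b.hQ b.hQr P.o (b.cs hP) fun a ha hev => ?_
    obtain ⟨N, f, hf, rfl⟩ := b.sum_hodge ha hev
    rw [inL_sum, Matrix.mulVec_sum]
    refine Finset.sum_eq_zero fun i _ => ?_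
    have h1 := (top_iff _ _).1 (h4 i (f i) (hf i))
    have h2 := hy.hspan (hspan_of_isComb b' h1)
    rw [Matrix.mulVec_smul] at h2
    have h3 := (smul_eq_zero.1 h2).resolve_left (hcj i)
    rw [← der_eq, der_conj he', der_eq, h3, act_eq, Matrix.mulVec_zero]
  have h1 := hk n a ((b.isHodge_iff a).1 ha).2
  have h2 : der (e' * y * e) (inL L a) = 0 := by
    rw [der_eq]
    exact h1
  rw [der_conj he'] at h2
  rw [← der_eq]
  exact act_eq_zero he' h2

/-- Part (2). -/
theorem main2 (hP : P.NoCM) (h : IsComparison P P' e c) (F0 : IntermediateField ℚ L)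
    (hF0 : FiniteDimensional ℚ F0) (h4 : BecomeHodge P P' e c F0 4) :
    ∃ F : IntermediateField ℚ L, FiniteDimensional ℚ F ∧
      ∀ n, 0 < n → BecomeHodge P P' e c F n := by
  obtain ⟨F, hF, hF'⟩ := exists_finQ L (Set.range (fun q : ι × ι => e q.1 q.2) ∪ {c})
    ((Set.finite_range _).union (Set.finite_singleton c))
  refine ⟨F, hF, fun n hn => ?_⟩
  cases n with
  | zero => exact absurd hn (lt_irrefl 0)
  | succ n =>
  intro j a ha
  have hee : e * e⁻¹ = 1 := Matrix.mul_nonsing_inv e h.unit
  refine span_of_comb (main1 hP h (fun j a ha => ?_) ha) fun v => hF' _ ?_ ?_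
  · exact (top_iff _ _).2 (comb_of_span (h4 j a ha))
  · -- the coordinates are in the field generated by `e` and `c`
    set M := IntermediateField.adjoin ℚ (Set.range (fun q : ι × ι => e q.1 q.2) ∪ {c}) with hM
    have hc : c ∈ M := IntermediateField.subset_adjoin _ _ (Or.inr rfl)
    have he : ∀ i k, e i k ∈ M := fun i k =>
      IntermediateField.subset_adjoin _ _ (Or.inl ⟨(i, k), rfl⟩)
    rw [Pi.smul_apply, smul_eq_mul]
    refine M.mul_mem (M.inv_mem (pow_mem hc j)) (M.sum_mem fun w _ => M.mul_mem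
      (M.prod_mem fun k _ => he _ _) ?_)
    have h1 : inL L a w = algebraMap ℚ L (a w) := by
      rw [inL, eq_ratCast]
    rw [h1]
    exact M.algebraMap_mem _
  · rw [Pi.smul_apply, smul_eq_mul]
    refine alg_all hP hee h.c_ne (fun i a hi w => ?_) ha v
    have h1 := coord_of_span (h4 i a hi) w
    rw [Pi.smul_apply, smul_eq_mul] at h1
    have h2 : IsAlgebraic ℚ (⟨_, h1⟩ : F0) := Algebra.IsAlgebraic.isAlgebraic _
    exact (isAlgebraic_algebraMap_iff (algebraMap F0 L).injective).2 h2

end Pool.Agent.N202.NC
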