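import Pool.Agent.N202.NC.DRB

/-!
# The theorem on de Rham–Betti classes
-/

set_option linter.unusedSectionVars false

namespace Pool.Agent.N202.NC

open Matrix ComplexConjugate
open Pool.Agent.N996.BP Pool.Agent.N202.TB
open Pool.Agent.N202.CF (Tensor inL IsComb act matL der der_eq act_eq)

variable {ι : Type} [Fintype ι] [DecidableEq ι]

/-- Matrices which kill the Hodge arrays with two indices preserve the degrees. -/
lemma deg_of_two (H : HData ι) {deg : ι → ℕ}
    (hl : ∀ t : ℂ, t ≠ 0 → ∀ i j, H.l t i j ≠ 0 → deg i = deg j)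
    (hQ : ∀ i j, H.Qir i j ≠ 0 → deg i = deg j) {w : Matrix ι ι ℚ}
    (hw : ∀ a ∈ BB H (Fin 2), Ev deg a → dp (Fin 2) w *ᵥ a = 0) : w ∈ E0 deg ℚ := by
  have hB := B_mem H hQ
  have hv2 : ∀ {e : Matrix ι ι ℚ}, En H deg e → dp (Fin 2) w *ᵥ (vec2 (e * H.Qir)) = 0 := by
    intro e he
    refine hw _ (two_BB H he.2) fun w hw => ?_
    have h3 := E0_mul he.1 hB
    have h4 : deg (w 0) = deg (w 1) := by
      by_contra hne
      exact hw (h3 _ _ hne)
    rw [Fin.sum_univ_two]
    exact ⟨deg (w 1), by rw [← h4]⟩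
  have hone0 : (1 : Matrix ι ι ℚ) ∈ E0 deg ℚ := by
    intro i j hne
    rw [Matrix.one_apply_ne]
    rintro rfl
    exact hne rfl
  have hone : En H deg (1 : Matrix ι ι ℚ) :=
    ⟨hone0, fun t _ => by rw [cQ_one, Matrix.mul_one, Matrix.one_mul]⟩
  have hsk : w * H.Qir + H.Qir * wᵀ = 0 := by
    have h3 := hv2 hone
    rw [Matrix.one_mul, dp_vec2 steps] at h3
    exact (LinearEquiv.map_eq_zero_iff _).1 h3
  have hcan : ∀ {x y : Matrix ι ι ℚ}, x * H.Qir = y * H.Qir → x = y := by
    intro x y h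
    have h3 := congrArg (fun M => M * H.Qr) h
    simpa only [Matrix.mul_assoc, BQ H, Matrix.mul_one] using h3
  have hwe : ∀ {e : Matrix ι ι ℚ}, En H deg e → w * e = e * w := by
    intro e he
    have h3 := hv2 he
    rw [dp_vec2 steps] at h3
    have h4 := (LinearEquiv.map_eq_zero_iff _).1 h3
    have h5 : H.Qir * wᵀ = -(w * H.Qir) := eq_neg_of_add_eq_zero_right hsk
    rw [Matrix.mul_assoc e, h5, Matrix.mul_neg, ← Matrix.mul_assoc,
      ← Matrix.mul_assoc, ← sub_eq_add_neg, sub_eq_zero] at h4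
    exact hcan h4
  intro i j hne
  have hx : En H deg (Matrix.diagonal fun k => if deg k = deg i then (1 : ℚ) else 0) := by
    constructor
    · intro a b hab
      rw [Matrix.diagonal_apply_ne]
      rintro rfl
      exact hab rfl
    · intro t ht
      ext a b
      have h2 : cQ (Matrix.diagonal fun k => if deg k = deg i then (1 : ℚ) else 0) =
          Matrix.diagonal fun k => if deg k = deg i then (1 : ℂ) else 0 := by
        ext a b
        simp only [cQ, Matrix.map_apply, Matrix.diagonal_apply]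
        split_ifs <;> simp
      rw [h2, Matrix.mul_diagonal, Matrix.diagonal_mul]
      by_cases h3 : H.l t a b = 0
      · rw [h3, zero_mul, mul_zero]
      · rw [hl t ht a b h3, mul_comm]
  have h1 := congrFun (congrFun (hwe hx) i) j
  rw [Matrix.mul_diagonal, Matrix.diagonal_mul, if_pos rfl, one_mul,
    if_neg (fun h => hne h.symm), mul_zero] at h1
  exact h1.symm

variable {P : HodgeStructure ι} {e : Matrix ι ι ℂ}

/-- Part (2). -/
theorem drb_main2 (hE : IsPeriodMatrix P e) (hP : P.NoCM) (hc : HasComplement P e)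
    (h2 : HodgeIsDRB P e 2) (h4 : DRBIsHodge P e 4) {n : ℕ} (hn : 0 < n) : DRBIsHodge P e n := by
  obtain ⟨H, b⟩ := exists_br Pool.Agent.N490.NC.HD_ P
  obtain ⟨W', hsub, hdisj, hsum⟩ := hc
  have hcompl : IsCompl (WL P e) W' := by
    refine ⟨Submodule.disjoint_def.2 fun x hx hx' => hdisj x hx' hx, ?_⟩
    rw [codisjoint_iff]
    refine Submodule.eq_top_iff'.2 fun x => ?_
    obtain ⟨y, hy, hy'⟩ := hsum x
    refine Submodule.mem_sup.2 ⟨y, hy, x - y, hy', by abel⟩
  -- Hodge arrays with two indices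
  have hKB2 : ∀ a ∈ BB H (Fin 2), Ev P.deg a → KB (VV P e) a := by
    intro a ha hev v hv
    obtain ⟨N, f, hf, rfl⟩ := b.sum_hodge ha hev
    rw [Matrix.mulVec_sum]
    exact Finset.sum_eq_zero fun j _ => (drb_iff hE (hf j).1).1 (h2 j (f j) (hf j)).2 v hv
  have hWdeg : ∀ w ∈ WL P e, w ∈ E0 P.deg ℚ := fun w hw =>
    deg_of_two H b.hl b.hQ fun a ha hev => WL_kill hE hw hev (hKB2 a ha hev)
  -- the projector
  set π := Submodule.projection (WL P e) W' hcompl with hπ
  have g1 : ∀ x, π x ∈ WL P e := fun x => Submodule.projection_apply_mem hcompl x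
  have g2 : ∀ x ∈ WL P e, π x = x := fun x hx => Submodule.projection_apply_left hcompl ⟨x, hx⟩
  have g3 : ∀ x ∈ W', π x = 0 := fun x hx => (Submodule.projection_apply_eq_zero_iff hcompl).2 hx
  have g4 : ∀ x, x - π x ∈ W' := fun x => by
    refine (Submodule.projection_apply_eq_zero_iff hcompl).1 ?_
    change π (x - π x) = 0
    rw [map_sub, g2 _ (g1 x), sub_self]
  have g5 : ∀ v ∈ VV P e, ∀ z ∈ E0 P.deg ℚ, π (v * z - z * v) = v * π z - π z * v := by
    rintro v hv z hz
    have hw := g1 z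
    have hzw : z - π z ∈ E0 P.deg ℚ := Submodule.sub_mem _ hz (hWdeg _ hw)
    have h6 : v * z - z * v = (v * π z - π z * v) + (v * (z - π z) - (z - π z) * v) := by
      rw [Matrix.mul_sub, Matrix.sub_mul]
      abel
    have h7 : v * (z - π z) - (z - π z) * v ∈ W' := by
      obtain ⟨D, lam, rfl⟩ := hv
      rw [VV_eq hE D lam hzw]
      exact sub_stable D (e_inv hE) hsub (g4 z) lam
    rw [h6, map_add, g2 _ (WL_bracket hE hv hw), g3 _ h7, add_zero]
  -- the core
  have hmain : ∀ {y : Matrix ι ι ℚ}, Kill H ℚ y → y ∈ WL P e := by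
    intro y hy
    refine rat_core H b.hl b.hQ b.hQr P.o (b.cs hP) (VV P e) (WL P e)
      (fun w hw n a hev ha => WL_kill hE hw hev ha) (fun v hv => VV_WL hE hv) hKB2 ?_
      (π ∘ₗ p0 P.deg ℚ) (fun x => g1 _) (fun x hx => ?_) (fun x hx => ?_) (fun v hv x => ?_) hy
    · intro a hev ha
      obtain ⟨N, hN⟩ := sum_comp P.deg hev
      rw [hN]
      exact Submodule.sum_mem _ fun j _ =>
        ((b.isHodge_iff _).1 (h4 j _ (drb_comp hE ha j))).2
    · rw [LinearMap.comp_apply, p0_of_mem (hWdeg x hx), g2 x hx]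
    · rw [LinearMap.comp_apply, hx, map_zero]
    · rw [LinearMap.comp_apply, LinearMap.comp_apply, map_sub, p0_mul_left (VV_sub hE hv),
        p0_mul_right (VV_sub hE hv), g5 v hv _ (p0_mem x)]
  cases n with
  | zero => exact absurd hn (lt_irrefl 0)
  | succ n =>
  intro j a ha
  refine (b.isHodge_iff a).2 ⟨ha.1, mem_BB_of_kill H fun z hz => ?_⟩
  rw [← der_eq]
  exact hmain hz _ j a ha

end Pool.Agent.N202.NC
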