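import Pool.Agent.N202.NC.Cent

/-!
# The core over the rational numbers
-/

set_option linter.unusedSectionVars false

namespace Pool.Agent.N202.NC

open Matrix ComplexConjugate
open Pool.Agent.N996.BP Pool.Agent.N202.TB

variable {ι : Type} [Fintype ι] [DecidableEq ι] {deg : ι → ℕ} (H : HData ι)
  (hl : ∀ t : ℂ, t ≠ 0 → ∀ i j, H.l t i j ≠ 0 → deg i = deg j)
  (hQ : ∀ i j, H.Qir i j ≠ 0 → deg i = deg j) (hQr : ∀ i j, H.Qr i j ≠ 0 → deg i = deg j)
  (o : ι) (hn : CS H deg)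

/-- The array is killed by the matrices in `V`. -/
def KB (V : Set (Matrix ι ι ℚ)) {n : ℕ} (a : (Fin n → ι) → ℚ) : Prop :=
  ∀ v ∈ V, dp (Fin n) v *ᵥ a = 0

/-- The array has even support. -/
def Ev (deg : ι → ℕ) {n : ℕ} (a : (Fin n → ι) → ℚ) : Prop := ∀ w, a w ≠ 0 → Even (∑ k, deg (w k))

include hl hQ hQr o hn in
/-- **The core.** -/
theorem rat_core (V : Set (Matrix ι ι ℚ)) (W : Set (Matrix ι ι ℚ))
    (hW : ∀ w ∈ W, ∀ (n : ℕ) (a : (Fin n → ι) → ℚ), Ev deg a → KB V a → dp (Fin n) w *ᵥ a = 0)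
    (hV : V ⊆ W)
    (h2 : ∀ a ∈ BB H (Fin 2), Ev deg a → KB V a)
    (h4 : ∀ a : (Fin 4 → ι) → ℚ, Ev deg a → KB V a → a ∈ BB H (Fin 4))
    (p : Matrix ι ι ℚ →ₗ[ℚ] Matrix ι ι ℚ) (hp1 : ∀ x, p x ∈ W) (hp2 : ∀ x ∈ W, p x = x)
    (hp3 : ∀ x, p0 deg ℚ x = 0 → p x = 0)
    (hp4 : ∀ v ∈ V, ∀ x, p (v * x - x * v) = v * p x - p x * v)
    {y : Matrix ι ι ℚ} (hy : Kill H ℚ y) : y ∈ W := by
  have hB := B_mem H hQ
  have hQm := Q_mem H hQr
  -- arrays with two indices
  have hv2 : ∀ {e : Matrix ι ι ℚ}, En H deg e → KB V (vec2 (e * H.Qir)) := by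
    intro e he
    refine h2 _ (two_BB H he.2) fun w hw => ?_
    have h3 := E0_mul he.1 hB
    have h4 : deg (w 0) = deg (w 1) := by
      by_contra hne
      exact hw (h3 _ _ hne)
    rw [Fin.sum_univ_two]
    exact ⟨deg (w 1), by rw [← h4]⟩
  have hev2 : ∀ {x : Matrix ι ι ℚ}, x ∈ E0 deg ℚ → Ev deg (vec2 (x * H.Qir)) := by
    intro x hx w hw
    have h3 := E0_mul hx hB
    have h4 : deg (w 0) = deg (w 1) := by
      by_contra hne
      exact hw (h3 _ _ hne)
    rw [Fin.sum_univ_two]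
    exact ⟨deg (w 1), by rw [← h4]⟩
  have hone0 : (1 : Matrix ι ι ℚ) ∈ E0 deg ℚ := by
    intro i j hne
    rw [Matrix.one_apply_ne]
    rintro rfl
    exact hne rfl
  have hone : En H deg (1 : Matrix ι ι ℚ) :=
    ⟨hone0, fun t _ => by rw [cQ_one, Matrix.mul_one, Matrix.one_mul]⟩
  have hsk : ∀ w ∈ W, w * H.Qir + H.Qir * wᵀ = 0 := by
    intro w hw
    have h3 := hW w hw 2 _ (hev2 hone0) (hv2 hone)
    rw [Matrix.one_mul, dp_vec2 steps] at h3
    exact (LinearEquiv.map_eq_zero_iff _).1 h3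
  have hcan : ∀ {x y : Matrix ι ι ℚ}, x * H.Qir = y * H.Qir → x = y := by
    intro x y h
    have h3 := congrArg (fun M => M * H.Qr) h
    simpa only [Matrix.mul_assoc, BQ H, Matrix.mul_one] using h3
  have hwe : ∀ {e : Matrix ι ι ℚ}, En H deg e → ∀ w ∈ W, w * e = e * w := by
    intro e he w hw
    have h3 := hW w hw 2 _ (hev2 he.1) (hv2 he)
    rw [dp_vec2 steps] at h3
    have h4 := (LinearEquiv.map_eq_zero_iff _).1 h3
    have h5 : H.Qir * wᵀ = -(w * H.Qir) := eq_neg_of_add_eq_zero_right (hsk w hw)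
    rw [Matrix.mul_assoc e, h5, Matrix.mul_neg, ← Matrix.mul_assoc,
      ← Matrix.mul_assoc, ← sub_eq_add_neg, sub_eq_zero] at h4
    exact hcan h4
  have hWdeg : ∀ w ∈ W, w ∈ E0 deg ℚ := by
    intro w hw i j hne
    have hx : En H deg (Matrix.diagonal fun k => if deg k = deg i then (1 : ℚ) else 0) := by
      constructor
      · intro a b hab
        rw [Matrix.diagonal_apply_ne]
        rintro rfl
        exact hab rfl
      · intro t ht
        ext a b
        have h2 : cQ (Matrix.diagonal fun k => if deg k = deg i then (1 : ℚ) else 0) =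
            Matrix.diagonal fun k => if deg k = deg i then (1 : ℂ) else 0 := by
          ext a b
          simp only [cQ, Matrix.map_apply, Matrix.diagonal_apply]
          split_ifs <;> simp
        rw [h2, Matrix.mul_diagonal, Matrix.diagonal_mul]
        by_cases h3 : H.l t a b = 0
        · rw [h3, zero_mul, mul_zero]
        · rw [hl t ht a b h3, mul_comm]
    have h1 := congrFun (congrFun (hwe hx w hw) i) j
    rw [Matrix.mul_diagonal, Matrix.diagonal_mul, if_pos rfl, one_mul,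
      if_neg (fun h => hne h.symm), mul_zero] at h1
    exact h1.symm
  -- the array of the projector
  have hα1 : ∀ y : Matrix ι ι ℚ, y * H.Qir + H.Qir * yᵀ = 0 →
      (dp (Fin 4) y *ᵥ arr4 (opP H.Qir H.Qr p * kp (Fin 2) H.Qir) = 0 ↔
        ∀ z, p (y * z - z * y) = y * p z - p z * y) := by
    intro y hy
    rw [dp_arr4_eq_zero steps (BQ H) hy, opP_comm steps (BQ H) p hy]
  have hαe : Ev deg (arr4 (opP H.Qir H.Qr p * kp (Fin 2) H.Qir)) := fun w hw =>
    arr4_even (fun v w hvw => opP_support hB hQm (fun x => hWdeg _ (hp1 x)) hp3 hvw) hw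
  have hαV : KB V (arr4 (opP H.Qir H.Qr p * kp (Fin 2) H.Qir)) := fun v hv =>
    (hα1 v (hsk v (hV hv))).2 (hp4 v hv)
  have hα2 := h4 _ hαe hαV
  have hα3 : ∀ z, p (y * z - z * y) = y * p z - p z * y := by
    have h3 := hy 3 _ hα2
    rw [aLQ] at h3
    exact (hα1 y (skewQ H hy)).1 h3
  have hα4 : ∀ w ∈ W, ∀ z, p (w * z - z * w) = w * p z - p z * w := fun w hw =>
    (hα1 w (hsk w hw)).1 (hW w hw 4 _ hαe hαV)
  have hxw : ∀ w ∈ W, w * (y - p y) = (y - p y) * w := by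
    intro w hw
    have h1 := hα3 w
    rw [hp2 w hw] at h1
    have h2 := hα4 w hw y
    have h3 : w * y - y * w = -(y * w - w * y) := by abel
    rw [h3, map_neg, h1] at h2
    rw [Matrix.mul_sub, Matrix.sub_mul, ← sub_eq_zero]
    have h4 : w * y - w * p y - (y * w - p y * w) = (w * y - y * w) - (w * p y - p y * w) := by abel
    rw [h4, ← h2]
    abel
  have hxm : y - p y ∈ E0 deg ℚ := by
    refine Submodule.sub_mem _ (fun i j hne => ?_) (hWdeg _ (hp1 y))
    by_contra h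
    exact hne (hy.deg steps hl h)
  have hβ : ∀ z x : Matrix ι ι ℚ, z * H.Qir + H.Qir * zᵀ = 0 →
      dp (Fin 2) z *ᵥ vec2 (x * H.Qir) = vec2 ((z * x - x * z) * H.Qir) := by
    intro z x hz
    have h1 : H.Qir * zᵀ = -(z * H.Qir) := eq_neg_of_add_eq_zero_right hz
    rw [dp_vec2 steps, Matrix.mul_assoc x, h1, Matrix.mul_neg, Matrix.sub_mul (z * x) (x * z),
      Matrix.mul_assoc z x, Matrix.mul_assoc x z, sub_eq_add_neg]
  have hγ1 : ∀ z : Matrix ι ι ℚ, z * H.Qir + H.Qir * zᵀ = 0 →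
      dp (Fin 4) z *ᵥ arr4 (Matrix.vecMulVec (vec2 ((y - p y) * H.Qir)) (vec2 H.Qir)) =
      arr4 (Matrix.vecMulVec (vec2 ((z * (y - p y) - (y - p y) * z) * H.Qir)) (vec2 H.Qir)) := by
    intro z hz
    have hb : dp (Fin 2) z *ᵥ vec2 H.Qir = 0 := by rw [dp_vec2 steps, hz, map_zero]
    rw [dp_arr4_vec steps hb, hβ z _ hz]
  have hγ2 := h4 _ (arr_even H hQ hxm) fun v hv => by
    rw [hγ1 v (hsk v (hV hv)), hxw v (hV hv), sub_self, Matrix.zero_mul, map_zero]
    ext w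
    simp [arr4, arr, Pool.Agent.N996.BP.rei, Matrix.vecMulVec_apply]
  obtain ⟨w0, hw0⟩ := exists_B H o
  have hcomm : ∀ z : Matrix ι ι ℚ, Kill H ℚ z → z * (y - p y) = (y - p y) * z := by
    intro z hz
    have h1 := hz 3 _ hγ2
    rw [aLQ, hγ1 z (skewQ H hz)] at h1
    have h2 := arr4_injective (h1.trans arr4_zero.symm)
    have h3 : vec2 ((z * (y - p y) - (y - p y) * z) * H.Qir) = 0 := by
      funext a
      have h5 := congrFun (congrFun h2 a) w0
      rw [Matrix.vecMulVec_apply] at h5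
      exact (mul_eq_zero.1 h5).resolve_right hw0
    have h5 := (LinearEquiv.map_eq_zero_iff _).1 h3
    have h6 := congrArg (fun M => M * H.Qr) h5
    simp only [Matrix.mul_assoc, BQ H, Matrix.mul_one, Matrix.zero_mul] at h6
    exact eq_of_sub_eq_zero h6
  have hsa : (y - p y) * H.Qir = H.Qir * (y - p y)ᵀ := by
    have h1 := self_adjoint (L := ℚ) hn (x := y - p y) hxm (fun z hz => by
      rw [mLQ]
      exact hcomm z hz) fun e he => by
        rw [mLQ, Matrix.mul_sub, Matrix.sub_mul, hwe he _ (hp1 y), commQ H hy he.2]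
    rwa [mLQ] at h1
  have hss : (y - p y) * H.Qir + H.Qir * (y - p y)ᵀ = 0 := by
    rw [Matrix.sub_mul, Matrix.transpose_sub, Matrix.mul_sub]
    have h3 : y * H.Qir - p y * H.Qir + (H.Qir * yᵀ - H.Qir * (p y)ᵀ) =
        (y * H.Qir + H.Qir * yᵀ) - (p y * H.Qir + H.Qir * (p y)ᵀ) := by abel
    rw [h3, skewQ H hy, hsk _ (hp1 y), sub_zero]
  have h0 := eq_zero_of_skew (BQ H) hsa hss
  rw [eq_of_sub_eq_zero h0]
  exact hp1 y

end Pool.Agent.N202.NC
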