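import Pool.Agent.N202.NC.Defs
import Pool.Agent.N202.TB.Stm

/-!
# Statements of the steps
-/

namespace Pool.Agent.N202.NC

open Matrix ComplexConjugate
open Pool.Agent.N996.BP Pool.Agent.N202.TB
open Pool.Agent.N202.CF (Tensor inL IsComb act matL der)

/-- NC/HD: the conversion of the definition of Hodge structures. (Adapt the matrix part of the proof
of `Pool.Agent.N202.TB.exists_hdata2`.) -/
def S_HD : Prop := ∀ (ι : Type) [Fintype ι] [DecidableEq ι] (P : HodgeStructure ι),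
  ∃ H : HData ι, (∀ t, H.l t = P.l t) ∧ H.w = P.w ∧ (∀ k ∈ Finset.Icc (-P.w : ℤ) P.w, H.π k = P.π k) ∧
    ∃ c : ℚ, c ≠ 0 ∧ H.Qr = c • (P.ψ)ᵀ

/-- NC/PR: the trace form is nondegenerate on the Lie algebra of the Hodge group, so there is an
equivariant projector to it. -/
def S_PR : Prop := ∀ (ι : Type) [Fintype ι] [DecidableEq ι] (H : HData ι) (deg : ι → ℕ),
  (∀ y : Matrix ι ι ℚ, Kill H ℚ y → ∀ i j, y i j ≠ 0 → deg i = deg j) →
  ∃ p : Matrix ι ι ℚ →ₗ[ℚ] Matrix ι ι ℚ, (∀ x, Kill H ℚ (p x)) ∧ (∀ x, Kill H ℚ x → p x = x) ∧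
    (∀ x : Matrix ι ι ℚ, (∀ i j, deg i = deg j → x i j = 0) → p x = 0) ∧
    ∀ y, Kill H ℚ y → ∀ x, p (y * x - x * y) = y * p x - p x * y

/-- NC/LEIB: the derivative of a tensor given by a rational tensor. -/
def S_LEIB : Prop := ∀ (K L : Type) [Field K] [Field L] [CharZero L] [Algebra K L]
  (D : Derivation K L L) (ι : Type) [Fintype ι] [DecidableEq ι] (n : ℕ) (e e' : Matrix ι ι L),
  e * e' = 1 → ∀ a : Tensor ι n ℚ,
    (fun v => D (act e (inL L a) v)) = act e (der (e' * e.map D) (inL L a))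

end Pool.Agent.N202.NC
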